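import Mathlib

set_option autoImplicit false

/-! The polynomials `A f + B` modulo primes: they are not a constant times a square outside the prime
divisors of an integer which is polynomially bounded in `A`, `B`. -/

namespace Pool.Agent.J6H11.PF

open Polynomial Finset

theorem exists_int (a : ℚ[X]) : ∃ (m : ℤ) (A : ℤ[X]), m ≠ 0 ∧
    A.map (Int.castRingHom ℚ) = C (m : ℚ) * a := by
  obtain ⟨m, hm0, hm⟩ := IsLocalization.integerNormalization_spec (nonZeroDivisors ℤ) a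
  refine ⟨m, IsLocalization.integerNormalization (nonZeroDivisors ℤ) a,
    nonZeroDivisors.ne_zero hm0, ?_⟩
  have h1 : (Int.castRingHom ℚ) = algebraMap ℤ ℚ := rfl
  rw [h1, hm]
  ext i
  rw [coeff_smul, coeff_C_mul, zsmul_eq_mul]

/-- the critical values of `f` are roots of a nonzero polynomial `χ` -/
theorem exists_chi (f : ℤ[X]) (hf : 1 ≤ f.natDegree) : ∃ (χ b : ℤ[X]), χ ≠ 0 ∧
    χ.comp f = derivative f * b := by
  obtain ⟨F, hF⟩ : ∃ F : ℚ[X], F = f.map (Int.castRingHom ℚ) := ⟨_, rfl⟩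
  obtain ⟨g, hg⟩ : ∃ g : ℚ[X], g = derivative F := ⟨_, rfl⟩
  have hFd : F.natDegree = f.natDegree := by
    rw [hF]
    exact natDegree_map_eq_of_injective (RingHom.injective_int (Int.castRingHom ℚ)) f
  have hg0 : g ≠ 0 := by
    intro h
    rw [hg] at h
    have h1 := derivative_eq_zero.1 h
    omega
  have hfin : Module.Finite ℚ (AdjoinRoot g) := (AdjoinRoot.powerBasis hg0).finite
  have hint : IsIntegral ℚ (AdjoinRoot.mk g F) := Algebra.IsIntegral.isIntegral _
  obtain ⟨χ0, hχ0, hχ0e⟩ := hint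
  have hdvd : g ∣ χ0.comp F := by
    rw [← AdjoinRoot.mk_eq_zero]
    have h1 : AdjoinRoot.mk g (χ0.comp F) = eval₂ (algebraMap ℚ (AdjoinRoot g)) (AdjoinRoot.mk g F) χ0 := by
      rw [comp, hom_eval₂]
      rfl
    rw [h1]
    exact hχ0e
  obtain ⟨b0, hb0⟩ := hdvd
  obtain ⟨m1, χ1, hm1, hχ1⟩ := exists_int χ0
  obtain ⟨m2, b1, hm2, hb1⟩ := exists_int b0
  refine ⟨C m2 * χ1, C m1 * b1, ?_, ?_⟩
  · have h1 : χ1 ≠ 0 := by
      rintro rfl
      rw [Polynomial.map_zero] at hχ1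
      have h2 : C (m1 : ℚ) * χ0 ≠ 0 := mul_ne_zero (C_ne_zero.2 (by exact_mod_cast hm1)) hχ0.ne_zero
      exact h2 hχ1.symm
    exact mul_ne_zero (C_ne_zero.2 hm2) h1
  · apply Polynomial.map_injective (Int.castRingHom ℚ) (RingHom.injective_int _)
    rw [Polynomial.map_comp, Polynomial.map_mul, Polynomial.map_mul, Polynomial.map_mul, hχ1, hb1,
      Polynomial.map_C, Polynomial.map_C, ← derivative_map, ← hF, ← hg, mul_comp, mul_comp, C_comp,
      C_comp, hb0]
    simp only [eq_intCast]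
    ring

/-- the value `A ^ D χ(- B / A)` -/
def nn (χ : ℤ[X]) (A B : ℤ) : ℤ :=
  ∑ i ∈ range (χ.natDegree + 1), χ.coeff i * (-B) ^ i * A ^ (χ.natDegree - i)

theorem nn_dvd (χ f : ℤ[X]) (A B : ℤ) :
    (C A * f + C B) ∣ C (A ^ χ.natDegree) * χ.comp f - C (nn χ A B) := by
  have h1 : χ.comp f = ∑ i ∈ range (χ.natDegree + 1), C (χ.coeff i) * f ^ i := by
    rw [comp, eval₂_eq_sum_range]
  have h2 : C (A ^ χ.natDegree) * χ.comp f - C (nn χ A B) =
      ∑ i ∈ range (χ.natDegree + 1), C (χ.coeff i * A ^ (χ.natDegree - i)) *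
        ((C A * f) ^ i - (-(C B)) ^ i) := by
    rw [h1, nn, Finset.mul_sum, map_sum, ← Finset.sum_sub_distrib]
    refine Finset.sum_congr rfl fun i hi => ?_
    rw [mem_range] at hi
    have e : A ^ χ.natDegree = A ^ (χ.natDegree - i) * A ^ i := by
      rw [← pow_add]; congr 1; omega
    rw [e]
    simp only [map_mul, map_pow, map_neg]
    ring
  rw [h2]
  refine Finset.dvd_sum fun i _ => Dvd.dvd.mul_left ?_ _
  have h3 := sub_dvd_pow_sub_pow (C A * f) (-(C B)) i
  rwa [sub_neg_eq_add] at h3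

/-- `A f + B` modulo `p` -/
theorem good_mod (f χ b : ℤ[X]) (hf : 1 ≤ f.natDegree) (hχ : χ.comp f = derivative f * b)
    (A B : ℤ) (p : ℕ) [Fact p.Prime] (hp : ¬ (p : ℤ) ∣ A * f.leadingCoeff * nn χ A B) :
    ((C A * f + C B).map (Int.castRingHom (ZMod p))).natDegree = f.natDegree ∧
    ∀ (c : ZMod p) (h : (ZMod p)[X]), (C A * f + C B).map (Int.castRingHom (ZMod p)) ≠ C c * h ^ 2 := by
  have key : ∀ n : ℤ, ¬ (p : ℤ) ∣ n → (Int.castRingHom (ZMod p)) n ≠ 0 := by
    intro n hn h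
    apply hn
    rw [eq_intCast, ZMod.intCast_zmod_eq_zero_iff_dvd] at h
    exact h
  have hA : (Int.castRingHom (ZMod p)) A ≠ 0 := key A fun h => hp (by
    rw [mul_assoc]; exact h.mul_right _)
  have hl : (Int.castRingHom (ZMod p)) f.leadingCoeff ≠ 0 := key _ fun h => hp
    ((h.mul_left _).mul_right _)
  have hn : (Int.castRingHom (ZMod p)) (nn χ A B) ≠ 0 := key _ fun h => hp (h.mul_left _)
  have hdeg : ((C A * f + C B).map (Int.castRingHom (ZMod p))).natDegree = f.natDegree := by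
    rw [Polynomial.map_add, Polynomial.map_mul, Polynomial.map_C, Polynomial.map_C, natDegree_add_C,
      natDegree_C_mul hA, natDegree_map_of_leadingCoeff_ne_zero _ hl]
  refine ⟨hdeg, ?_⟩
  intro c h he
  obtain ⟨a, ha⟩ := nn_dvd χ f A B
  -- `h` divides the derivative
  have h1 : h ∣ (derivative f).map (Int.castRingHom (ZMod p)) := by
    have h2 : h ∣ derivative ((C A * f + C B).map (Int.castRingHom (ZMod p))) := by
      rw [he, derivative_mul, derivative_C, zero_mul, zero_add, derivative_pow]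
      refine Dvd.dvd.mul_left ?_ _
      simp only [Nat.add_one_sub_one, pow_one]
      exact Dvd.dvd.mul_right (Dvd.dvd.mul_left dvd_rfl _) _
    rw [derivative_map, derivative_add, derivative_C, add_zero, derivative_C_mul, Polynomial.map_mul,
      Polynomial.map_C] at h2
    have hu : IsUnit (C ((Int.castRingHom (ZMod p)) A) : (ZMod p)[X]) := by
      rw [isUnit_C, isUnit_iff_ne_zero]; exact hA
    exact (hu.dvd_mul_left).1 h2
  have h5 : h ∣ C ((Int.castRingHom (ZMod p)) (nn χ A B)) := by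
    have h6 := congrArg (Polynomial.map (Int.castRingHom (ZMod p))) ha
    rw [Polynomial.map_sub, Polynomial.map_mul, Polynomial.map_mul, Polynomial.map_C,
      Polynomial.map_C, he, hχ, Polynomial.map_mul] at h6
    have h7 : C ((Int.castRingHom (ZMod p)) (nn χ A B)) =
        C ((Int.castRingHom (ZMod p)) (A ^ χ.natDegree)) *
          ((derivative f).map (Int.castRingHom (ZMod p)) * b.map (Int.castRingHom (ZMod p))) -
        C c * h ^ 2 * a.map (Int.castRingHom (ZMod p)) := by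
      rw [← h6]; ring
    rw [h7]
    refine dvd_sub ?_ ?_
    · exact Dvd.dvd.mul_left (h1.mul_right _) _
    · exact Dvd.dvd.mul_right (Dvd.dvd.mul_left (dvd_pow_self h two_ne_zero) _) _
  have h6 : IsUnit (C ((Int.castRingHom (ZMod p)) (nn χ A B)) : (ZMod p)[X]) := by
    rw [isUnit_C, isUnit_iff_ne_zero]; exact hn
  have h7 := natDegree_eq_zero_of_isUnit (isUnit_of_dvd_unit h5 h6)
  have h8 : ((C A * f + C B).map (Int.castRingHom (ZMod p))).natDegree ≤ 0 := by
    rw [he]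
    refine natDegree_mul_le.trans ?_
    rw [natDegree_C, zero_add]
    refine natDegree_pow_le.trans ?_
    rw [h7, mul_zero]
  omega

/-- the sum of the absolute values of the coefficients -/
def sc (χ : ℤ[X]) : ℝ := ∑ i ∈ range (χ.natDegree + 1), |(χ.coeff i : ℝ)|

theorem sc_nonneg (χ : ℤ[X]) : 0 ≤ sc χ := Finset.sum_nonneg fun _ _ => abs_nonneg _

theorem nn_le (χ : ℤ[X]) (A B : ℤ) :
    |(nn χ A B : ℝ)| ≤ sc χ * (|(A : ℝ)| + |(B : ℝ)|) ^ χ.natDegree := by
  unfold nn sc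
  push_cast
  refine (Finset.abs_sum_le_sum_abs _ _).trans ?_
  rw [Finset.sum_mul]
  refine Finset.sum_le_sum fun i hi => ?_
  rw [mem_range] at hi
  have e : (|(A : ℝ)| + |(B : ℝ)|) ^ χ.natDegree =
      (|(A : ℝ)| + |(B : ℝ)|) ^ i * (|(A : ℝ)| + |(B : ℝ)|) ^ (χ.natDegree - i) := by
    rw [← pow_add]; congr 1; omega
  rw [abs_mul, abs_mul, abs_pow, abs_pow, abs_neg, e, mul_assoc]
  have hA := abs_nonneg (A : ℝ)
  have hB := abs_nonneg (B : ℝ)
  gcongr
  · linarith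
  · linarith

/-- `χ(- B / A) ≠ 0` for large `B / A` -/
theorem nn_ne (χ : ℤ[X]) (hχ : χ ≠ 0) (A B : ℤ) (h : (sc χ + 1) * |(A : ℝ)| < |(B : ℝ)|) :
    nn χ A B ≠ 0 := by
  have hs := sc_nonneg χ
  have hA := abs_nonneg (A : ℝ)
  have hB : 0 < |(B : ℝ)| := lt_of_le_of_lt (by positivity) h
  have hAB : |(A : ℝ)| ≤ |(B : ℝ)| := by nlinarith
  obtain ⟨D, hD⟩ : ∃ D, D = χ.natDegree := ⟨_, rfl⟩
  have hlead : χ.coeff D ≠ 0 := by
    rw [hD]
    exact leadingCoeff_ne_zero.2 hχ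
  have hlead1 : (1 : ℝ) ≤ |(χ.coeff D : ℝ)| := by exact_mod_cast Int.one_le_abs hlead
  rcases Nat.eq_zero_or_pos D with h0 | h0
  · unfold nn
    rw [← hD, h0]
    simpa using (h0 ▸ hlead)
  intro hnn
  have h1 : (χ.coeff D : ℝ) * (-(B : ℝ)) ^ D =
      -∑ i ∈ range D, (χ.coeff i : ℝ) * (-(B : ℝ)) ^ i * (A : ℝ) ^ (D - i) := by
    have h2 : ((nn χ A B : ℤ) : ℝ) = 0 := by rw [hnn, Int.cast_zero]
    unfold nn at h2
    rw [← hD, Finset.sum_range_succ] at h2
    push_cast at h2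
    rw [Nat.sub_self, pow_zero, mul_one] at h2
    linarith
  have h3 : |(B : ℝ)| ^ D ≤ sc χ * (|(B : ℝ)| ^ (D - 1) * |(A : ℝ)|) := by
    have h4 : |(B : ℝ)| ^ D ≤ |(χ.coeff D : ℝ) * (-(B : ℝ)) ^ D| := by
      rw [abs_mul, abs_pow, abs_neg]
      exact le_mul_of_one_le_left (by positivity) hlead1
    refine h4.trans ?_
    rw [h1, abs_neg]
    refine (Finset.abs_sum_le_sum_abs _ _).trans ?_
    have h5 : ∑ i ∈ range D, |(χ.coeff i : ℝ)| ≤ sc χ := by
      unfold sc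
      rw [← hD, Finset.sum_range_succ]
      linarith [abs_nonneg (χ.coeff D : ℝ)]
    refine le_trans ?_ (mul_le_mul_of_nonneg_right h5 (by positivity))
    rw [Finset.sum_mul]
    refine Finset.sum_le_sum fun i hi => ?_
    rw [mem_range] at hi
    rw [abs_mul, abs_mul, abs_pow, abs_pow, abs_neg, mul_assoc]
    refine mul_le_mul_of_nonneg_left ?_ (abs_nonneg _)
    have e1 : |(A : ℝ)| ^ (D - i) = |(A : ℝ)| ^ (D - 1 - i) * |(A : ℝ)| := by
      rw [← pow_succ]; congr 1; omega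
    have e2 : |(B : ℝ)| ^ (D - 1) = |(B : ℝ)| ^ i * |(B : ℝ)| ^ (D - 1 - i) := by
      rw [← pow_add]; congr 1; omega
    rw [e1, e2, mul_assoc]
    gcongr
  have h6 : |(B : ℝ)| ^ D = |(B : ℝ)| ^ (D - 1) * |(B : ℝ)| := by
    rw [← pow_succ]; congr 1; omega
  rw [h6] at h3
  have h7 : 0 < |(B : ℝ)| ^ (D - 1) := by positivity
  have h8 : |(B : ℝ)| ^ (D - 1) * |(B : ℝ)| ≤ |(B : ℝ)| ^ (D - 1) * (sc χ * |(A : ℝ)|) := by linarith
  have h9 := le_of_mul_le_mul_left h8 h7
  linarith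

end Pool.Agent.J6H11.PF
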