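import Mathlib
import Pool.Agent.Erdos456.Mertens
import Pool.Agent.Helper590.Ke.Sieve

set_option autoImplicit false

/-! The larger sieve for sets of integers which meet at most about half of the residue classes modulo
the primes that do not divide `R`, uniformly in `R`. -/

namespace Pool.Agent.J6H11.PF

open Finset
open scoped Classical

theorem pairs_ge {α β : Type*} [DecidableEq β] (S : Finset α) (f : α → β) {ν : ℝ}
    (h : ((S.image f).card : ℝ) ≤ ν) :
    (S.card : ℝ) ^ 2 ≤ ν * ∑ x ∈ S, ∑ y ∈ S, if f y = f x then (1 : ℝ) else 0 := by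
  have h0 : ∀ x ∈ S, ∑ y ∈ S, (if f y = f x then (1 : ℝ) else 0) =
      ((S.filter fun y => f y = f x).card : ℝ) := by
    intro x _
    rw [← Finset.sum_filter, sum_const, nsmul_eq_mul, mul_one]
  rw [Finset.sum_congr rfl h0]
  have h1 : ∑ x ∈ S, ((S.filter fun y => f y = f x).card : ℝ) =
      ∑ b ∈ S.image f, ((S.filter fun y => f y = b).card : ℝ) ^ 2 := by
    rw [Finset.sum_comp (fun b => ((S.filter fun y => f y = b).card : ℝ)) f]
    refine Finset.sum_congr rfl fun b _ => ?_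
    rw [nsmul_eq_mul, sq]
  have h2 : (S.card : ℝ) = ∑ b ∈ S.image f, ((S.filter fun y => f y = b).card : ℝ) := by
    have := Finset.card_eq_sum_card_image f S
    rw [this]
    push_cast
    rfl
  rw [h1]
  have h3 := sq_sum_le_card_mul_sum_sq (s := S.image f)
    (f := fun b => ((S.filter fun y => f y = b).card : ℝ))
  rw [← h2] at h3
  refine h3.trans ?_
  gcongr

theorem sum_union_le {f : ℕ → ℝ} (hf : ∀ n, 0 ≤ f n) (A B : Finset ℕ) :
    ∑ n ∈ A ∪ B, f n ≤ ∑ n ∈ A, f n + ∑ n ∈ B, f n := by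
  rw [← Finset.sum_union_inter]
  have : 0 ≤ ∑ n ∈ A ∩ B, f n := Finset.sum_nonneg fun n _ => hf n
  linarith

/-- Gallagher's larger sieve for integers -/
theorem larger_int (S : Finset ℤ) (P : Finset ℕ) (hP : ∀ p ∈ P, p.Prime) (X : ℝ) (hX : 1 ≤ X)
    (hS : ∀ x ∈ S, ∀ y ∈ S, |((x - y : ℤ) : ℝ)| ≤ X) (ν : ℕ → ℝ) (hν : ∀ p ∈ P, 0 < ν p)
    (hc : ∀ p ∈ P, ((S.image (fun t : ℤ => (t : ZMod p))).card : ℝ) ≤ ν p) :
    (S.card : ℝ) * (∑ p ∈ P, Real.log p / ν p - Real.log X) ≤ ∑ p ∈ P, Real.log p := by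
  have hlog : ∀ p ∈ P, 0 ≤ Real.log p := fun p _ => Real.log_natCast_nonneg p
  have hlX : 0 ≤ Real.log X := Real.log_nonneg hX
  rcases S.eq_empty_or_nonempty with rfl | hne
  · rw [card_empty, Nat.cast_zero, zero_mul]
    exact Finset.sum_nonneg hlog
  have hs0 : (0 : ℝ) < S.card := by exact_mod_cast hne.card_pos
  have h1 : ∀ p ∈ P, (S.card : ℝ) ^ 2 * (Real.log p / ν p) ≤
      ∑ x ∈ S, ∑ y ∈ S, if ((y : ℤ) : ZMod p) = x then Real.log p else 0 := by
    intro p hp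
    have h2 := pairs_ge S (fun t : ℤ => (t : ZMod p)) (hc p hp)
    have h3 : ∑ x ∈ S, ∑ y ∈ S, (if ((y : ℤ) : ZMod p) = x then Real.log p else 0) =
        Real.log p * ∑ x ∈ S, ∑ y ∈ S, (if ((y : ℤ) : ZMod p) = x then (1 : ℝ) else 0) := by
      rw [Finset.mul_sum]
      refine Finset.sum_congr rfl fun x _ => ?_
      rw [Finset.mul_sum]
      refine Finset.sum_congr rfl fun y _ => ?_
      split_ifs <;> simp
    rw [h3]
    have hν0 := hν p hp
    rw [← mul_div_assoc, div_le_iff₀ hν0]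
    calc (S.card : ℝ) ^ 2 * Real.log p ≤ (ν p * ∑ x ∈ S, ∑ y ∈ S,
          (if ((y : ℤ) : ZMod p) = x then (1 : ℝ) else 0)) * Real.log p := by
          have := hlog p hp
          gcongr
      _ = _ := by ring
  have h2 : ∀ x ∈ S, ∀ y ∈ S, ∑ p ∈ P, (if ((y : ℤ) : ZMod p) = x then Real.log p else 0) ≤
      (if y = x then ∑ p ∈ P, Real.log p else 0) + Real.log X := by
    intro x hx y hy
    by_cases hxy : y = x
    · rw [if_pos hxy]
      have : ∑ p ∈ P, (if ((y : ℤ) : ZMod p) = x then Real.log p else 0) ≤ ∑ p ∈ P, Real.log p := by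
        refine Finset.sum_le_sum fun p hp => ?_
        split_ifs
        · exact le_rfl
        · exact hlog p hp
      linarith
    · rw [if_neg hxy, zero_add, ← Finset.sum_filter]
      have hd0 : y - x ≠ 0 := sub_ne_zero.2 hxy
      have h3 : P.filter (fun p : ℕ => ((y : ℤ) : ZMod p) = x) ⊆
          P.filter (fun p : ℕ => p ∣ (y - x).natAbs) := by
        intro p hp
        rw [mem_filter] at hp ⊢
        refine ⟨hp.1, ?_⟩
        have h4 : (((y - x : ℤ)) : ZMod p) = 0 := by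
          rw [Int.cast_sub, hp.2, sub_self]
        rw [ZMod.intCast_zmod_eq_zero_iff_dvd] at h4
        exact Int.natCast_dvd.1 h4
      refine (Finset.sum_le_sum_of_subset_of_nonneg h3 fun p _ _ => Real.log_natCast_nonneg p).trans ?_
      refine (Pool.Agent.Helper590.Ke.sum_log_le P hP _ (Int.natAbs_pos.2 hd0)).trans ?_
      refine Real.log_le_log (by exact_mod_cast Int.natAbs_pos.2 hd0) ?_
      rw [Nat.cast_natAbs, Int.cast_abs]
      exact hS y hy x hx
  have h3 : (S.card : ℝ) ^ 2 * ∑ p ∈ P, Real.log p / ν p ≤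
      S.card * ∑ p ∈ P, Real.log p + (S.card : ℝ) ^ 2 * Real.log X := by
    calc (S.card : ℝ) ^ 2 * ∑ p ∈ P, Real.log p / ν p
        = ∑ p ∈ P, (S.card : ℝ) ^ 2 * (Real.log p / ν p) := by rw [Finset.mul_sum]
      _ ≤ ∑ p ∈ P, ∑ x ∈ S, ∑ y ∈ S, (if ((y : ℤ) : ZMod p) = x then Real.log p else 0) :=
          Finset.sum_le_sum h1
      _ = ∑ x ∈ S, ∑ y ∈ S, ∑ p ∈ P, (if ((y : ℤ) : ZMod p) = x then Real.log p else 0) := by
          rw [Finset.sum_comm]
          refine Finset.sum_congr rfl fun x _ => ?_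
          rw [Finset.sum_comm]
      _ ≤ ∑ x ∈ S, ∑ y ∈ S, ((if y = x then ∑ p ∈ P, Real.log p else 0) + Real.log X) :=
          Finset.sum_le_sum fun x hx => Finset.sum_le_sum fun y hy => h2 x hx y hy
      _ = _ := by
          have e : ∀ x ∈ S, ∑ y ∈ S, ((if y = x then ∑ p ∈ P, Real.log p else 0) + Real.log X) =
              ∑ p ∈ P, Real.log p + S.card * Real.log X := by
            intro x hx
            rw [Finset.sum_add_distrib, Finset.sum_ite_eq' S x, if_pos hx, sum_const, nsmul_eq_mul]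
          rw [Finset.sum_congr rfl e, sum_const, nsmul_eq_mul]
          ring
  have h4 : (S.card : ℝ) * ((S.card : ℝ) * (∑ p ∈ P, Real.log p / ν p - Real.log X)) ≤
      S.card * ∑ p ∈ P, Real.log p := by nlinarith
  exact le_of_mul_le_mul_left h4 hs0

/-- the larger sieve for half of the residue classes -/
theorem ls (M : ℝ) (hM : 0 ≤ M) (δ : ℝ) (hδ : 0 < δ) (hδ1 : δ ≤ 1) : ∃ C : ℝ, 0 < C ∧
    ∀ R : ℤ, R ≠ 0 → ∀ X : ℝ, 1 ≤ X → ∀ S : Finset ℤ,
      (∀ x ∈ S, ∀ y ∈ S, |((x - y : ℤ) : ℝ)| ≤ X) →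
      (∀ p : ℕ, p.Prime → ¬ (p : ℤ) ∣ R →
        ((S.image (fun t : ℤ => (t : ZMod p))).card : ℝ) ≤ p / 2 + M * Real.sqrt p) →
      (S.card : ℝ) ≤ C * (X * |(R : ℝ)|) ^ δ * Real.sqrt X := by
  obtain ⟨Cm, hCm⟩ := Pool.Agent.Erdos456.Mert.mertens_log
  have hCm0 : 0 ≤ Cm := (abs_nonneg _).trans (hCm 1 le_rfl)
  obtain ⟨η, hη⟩ : ∃ η : ℝ, η = δ / 4 := ⟨_, rfl⟩
  have hη0 : 0 < η := by rw [hη]; positivity
  have hη1 : η ≤ 1 / 4 := by rw [hη]; linarith
  obtain ⟨K1, hK1⟩ : ∃ K1 : ℝ, K1 = max (max 1 (2 / δ)) ((2 * M / η) ^ 2) := ⟨_, rfl⟩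
  have hK11 : 1 ≤ K1 := by rw [hK1]; exact (le_max_left _ _).trans (le_max_left _ _)
  have hK1δ : 2 / δ ≤ K1 := by rw [hK1]; exact (le_max_right _ _).trans (le_max_left _ _)
  have hK1M : (2 * M / η) ^ 2 ≤ K1 := by rw [hK1]; exact le_max_right _ _
  have hlK1 : 0 ≤ Real.log K1 := Real.log_nonneg hK11
  -- the constant
  obtain ⟨c, hc⟩ : ∃ c : ℝ, c = 2 * (Real.log K1 + 2 * Cm + 1) + 1 := ⟨_, rfl⟩
  have hc0 : 0 ≤ c := by rw [hc]; positivity
  obtain ⟨K, hK⟩ : ∃ K : ℝ, K = Real.exp c := ⟨_, rfl⟩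
  have hK1' : 1 ≤ K := by rw [hK]; exact Real.one_le_exp hc0
  have hK0 : 0 < K := by linarith
  refine ⟨4 * K, by positivity, ?_⟩
  intro R hR X hX S hS hcl
  have hX0 : 0 < X := by linarith
  have hR1 : (1 : ℝ) ≤ |(R : ℝ)| := by exact_mod_cast Int.one_le_abs hR
  obtain ⟨W, hW⟩ : ∃ W : ℝ, W = X * |(R : ℝ)| := ⟨_, rfl⟩
  rw [← hW]
  have hXW : X ≤ W := by rw [hW]; exact le_mul_of_one_le_right hX0.le hR1
  have hRW : |(R : ℝ)| ≤ W := by rw [hW]; exact le_mul_of_one_le_left (by positivity) hX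
  have hW1 : 1 ≤ W := hX.trans hXW
  have hW0 : 0 < W := by linarith
  have hlW : 0 ≤ Real.log W := Real.log_nonneg hW1
  have hlX : 0 ≤ Real.log X := Real.log_nonneg hX
  have hlXW : Real.log X ≤ Real.log W := Real.log_le_log hX0 hXW
  have hsX : 1 ≤ Real.sqrt X := by rw [Real.one_le_sqrt]; exact hX
  have hsX0 : 0 < Real.sqrt X := by linarith
  have hWδ : 1 ≤ W ^ δ := Real.one_le_rpow hW1 hδ.le
  obtain ⟨Qr, hQr⟩ : ∃ Qr : ℝ, Qr = K * W ^ δ * Real.sqrt X := ⟨_, rfl⟩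
  have hQr1 : 1 ≤ Qr := by
    rw [hQr]
    exact one_le_mul_of_one_le_of_one_le (one_le_mul_of_one_le_of_one_le hK1' hWδ) hsX
  have hQr0 : 0 < Qr := by linarith
  obtain ⟨Q, hQ⟩ : ∃ Q : ℕ, Q = ⌈Qr⌉₊ := ⟨_, rfl⟩
  have hQle : Qr ≤ Q := by rw [hQ]; exact Nat.le_ceil _
  have hQlt : (Q : ℝ) < Qr + 1 := by rw [hQ]; exact Nat.ceil_lt_add_one hQr0.le
  have hQ1 : 1 ≤ Q := by
    have : (1 : ℝ) ≤ Q := hQr1.trans hQle
    exact_mod_cast this
  obtain ⟨Q1, hQ1d⟩ : ∃ Q1 : ℝ, Q1 = K1 * W ^ (δ / 2) := ⟨_, rfl⟩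
  have hWδ2 : 1 ≤ W ^ (δ / 2) := Real.one_le_rpow hW1 (by positivity)
  have hQ11 : 1 ≤ Q1 := by rw [hQ1d]; exact one_le_mul_of_one_le_of_one_le hK11 hWδ2
  have hQ10 : 0 < Q1 := by linarith
  have hQ1K : K1 ≤ Q1 := by rw [hQ1d]; exact le_mul_of_one_le_right (by linarith) hWδ2
  have hlogW : Real.log W ≤ Q1 := by
    have h1 : Real.log W ≤ W ^ (δ / 2) / (δ / 2) := Real.log_le_rpow_div hW0.le (by positivity)
    refine h1.trans ?_
    rw [hQ1d]
    have e : W ^ (δ / 2) / (δ / 2) = 2 / δ * W ^ (δ / 2) := by field_simp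
    rw [e]
    gcongr
  -- the primes
  obtain ⟨P, hP⟩ : ∃ P : Finset ℕ, P = ((Icc 1 Q).filter Nat.Prime).filter
    (fun p : ℕ => Q1 < (p : ℝ) ∧ ¬ (p : ℤ) ∣ R) := ⟨_, rfl⟩
  have hPp : ∀ p ∈ P, p.Prime ∧ Q1 < (p : ℝ) ∧ ¬ (p : ℤ) ∣ R ∧ p ≤ Q := by
    intro p hp
    rw [hP, mem_filter, mem_filter, mem_Icc] at hp
    exact ⟨hp.1.2, hp.2.1, hp.2.2, hp.1.1.2⟩
  have hν0 : ∀ p ∈ P, 0 < (p : ℝ) / 2 + M * Real.sqrt p := by
    intro p hp
    have : (0 : ℝ) < p := by exact_mod_cast (hPp p hp).1.pos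
    positivity
  have hmain := larger_int S P (fun p hp => (hPp p hp).1) X hX hS
    (fun p => (p : ℝ) / 2 + M * Real.sqrt p) hν0 (fun p hp => hcl p (hPp p hp).1 (hPp p hp).2.2.1)
  -- upper bound for the right side
  have hup : ∑ p ∈ P, Real.log (p : ℝ) ≤ 2 * Q := by
    refine le_trans ?_ (Pool.Agent.Erdos456.Mert.theta_le Q)
    refine Finset.sum_le_sum_of_subset_of_nonneg ?_ fun p _ _ => Real.log_natCast_nonneg p
    rw [hP]
    exact filter_subset _ _
  -- lower bound for the sum of the primes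
  have hlow1 : Real.log Q - Real.log Q1 - 2 * Cm - 1 ≤ ∑ p ∈ P, Real.log (p : ℝ) / p := by
    have hA := abs_le.1 (hCm Q hQ1)
    obtain ⟨q, hq⟩ : ∃ q : ℕ, q = ⌊Q1⌋₊ := ⟨_, rfl⟩
    have hq1 : 1 ≤ q := by rw [hq]; exact Nat.le_floor (by exact_mod_cast hQ11)
    have hqQ : (q : ℝ) ≤ Q1 := by rw [hq]; exact Nat.floor_le hQ10.le
    have hB := abs_le.1 (hCm q hq1)
    have hlq : Real.log q ≤ Real.log Q1 := Real.log_le_log (by exact_mod_cast hq1) hqQ
    -- split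
    have hnn : ∀ p : ℕ, 0 ≤ Real.log (p : ℝ) / p := fun p =>
      div_nonneg (Real.log_natCast_nonneg p) (Nat.cast_nonneg p)
    have hbad : ∑ p ∈ ((Icc 1 Q).filter Nat.Prime).filter
        (fun p : ℕ => Q1 < (p : ℝ) ∧ (p : ℤ) ∣ R), Real.log (p : ℝ) / p ≤ 1 := by
      have h1 : ∀ p ∈ ((Icc 1 Q).filter Nat.Prime).filter
          (fun p : ℕ => Q1 < (p : ℝ) ∧ (p : ℤ) ∣ R), Real.log (p : ℝ) / p ≤ Real.log p / Q1 := by
        intro p hp
        rw [mem_filter] at hp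
        have := Real.log_natCast_nonneg p
        gcongr
        exact hp.2.1.le
      refine (Finset.sum_le_sum h1).trans ?_
      rw [← Finset.sum_div, div_le_one hQ10]
      have h2 : ∑ p ∈ ((Icc 1 Q).filter Nat.Prime).filter
          (fun p : ℕ => Q1 < (p : ℝ) ∧ (p : ℤ) ∣ R), Real.log (p : ℝ) ≤
          ∑ p ∈ ((Icc 1 Q).filter Nat.Prime).filter (fun p => p ∣ R.natAbs), Real.log (p : ℝ) := by
        refine Finset.sum_le_sum_of_subset_of_nonneg ?_ fun p _ _ => Real.log_natCast_nonneg p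
        intro p hp
        rw [mem_filter] at hp ⊢
        exact ⟨hp.1, Int.natCast_dvd.1 hp.2.2⟩
      refine h2.trans ((Pool.Agent.Helper590.Ke.sum_log_le _
        (fun p hp => (mem_filter.1 hp).2) _ (Int.natAbs_pos.2 hR)).trans ?_)
      rw [Nat.cast_natAbs, Int.cast_abs]
      refine (Real.log_le_log (by linarith) hRW).trans hlogW
    have hsplit : ∑ p ∈ (Icc 1 Q).filter Nat.Prime, Real.log (p : ℝ) / p ≤
        ∑ p ∈ P, Real.log (p : ℝ) / p + ∑ p ∈ (Icc 1 q).filter Nat.Prime, Real.log (p : ℝ) / p +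
        ∑ p ∈ ((Icc 1 Q).filter Nat.Prime).filter
          (fun p : ℕ => Q1 < (p : ℝ) ∧ (p : ℤ) ∣ R), Real.log (p : ℝ) / p := by
      have hsub : (Icc 1 Q).filter Nat.Prime ⊆ (P ∪ (Icc 1 q).filter Nat.Prime) ∪
          ((Icc 1 Q).filter Nat.Prime).filter (fun p : ℕ => Q1 < (p : ℝ) ∧ (p : ℤ) ∣ R) := by
        intro p hp
        rw [mem_union, mem_union]
        by_cases h1 : Q1 < (p : ℝ)
        · by_cases h2 : (p : ℤ) ∣ R
          · right; rw [mem_filter]; exact ⟨hp, h1, h2⟩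
          · left; left; rw [hP, mem_filter]; exact ⟨hp, h1, h2⟩
        · left; right
          rw [mem_filter, mem_Icc] at hp ⊢
          refine ⟨⟨hp.1.1, ?_⟩, hp.2⟩
          rw [hq]
          exact Nat.le_floor (not_lt.1 h1)
      refine (Finset.sum_le_sum_of_subset_of_nonneg hsub fun p _ _ => hnn p).trans ?_
      refine (sum_union_le hnn _ _).trans ?_
      gcongr
      exact sum_union_le hnn _ _
    linarith [hA.1, hB.2]
  have hlow2 : 2 * (1 - η) * ∑ p ∈ P, Real.log (p : ℝ) / p ≤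
      ∑ p ∈ P, Real.log (p : ℝ) / ((p : ℝ) / 2 + M * Real.sqrt p) := by
    rw [Finset.mul_sum]
    refine Finset.sum_le_sum fun p hp => ?_
    obtain ⟨hpp, hpQ1, -, -⟩ := hPp p hp
    have hp0 : (0 : ℝ) < p := by exact_mod_cast hpp.pos
    have hl0 := Real.log_natCast_nonneg p
    rw [le_div_iff₀ (hν0 p hp)]
    have hs : M * Real.sqrt p ≤ η / 2 * p := by
      have h1 : 2 * M / η ≤ Real.sqrt p := by
        apply Real.le_sqrt_of_sq_le
        linarith
      have h2 : Real.sqrt p * Real.sqrt p = p := Real.mul_self_sqrt hp0.le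
      have h3 : 0 ≤ Real.sqrt p := Real.sqrt_nonneg _
      rw [div_le_iff₀ hη0] at h1
      nlinarith
    have e : 2 * (1 - η) * (Real.log (p : ℝ) / p) * ((p : ℝ) / 2 + M * Real.sqrt p) =
        Real.log p * ((1 - η) * (1 + 2 * (M * Real.sqrt p) / p)) := by
      field_simp
    rw [e]
    have h4 : 2 * (M * Real.sqrt p) / p ≤ η := by
      rw [div_le_iff₀ hp0]; linarith
    have h5 : (1 - η) * (1 + 2 * (M * Real.sqrt p) / p) ≤ 1 := by
      have h6 : 0 ≤ 1 - η := by linarith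
      calc (1 - η) * (1 + 2 * (M * Real.sqrt p) / p) ≤ (1 - η) * (1 + η) := by gcongr
        _ ≤ 1 := by nlinarith
    calc Real.log (p : ℝ) * ((1 - η) * (1 + 2 * (M * Real.sqrt p) / p)) ≤ Real.log p * 1 := by gcongr
      _ = _ := by ring
  -- the difference is at least `1`
  have hlogQ : c + δ * Real.log W + Real.log X / 2 ≤ Real.log Q := by
    have h1 : Real.log Qr = c + δ * Real.log W + Real.log X / 2 := by
      rw [hQr, Real.log_mul (by positivity) (by positivity), Real.log_mul (by positivity) (by positivity),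
        hK, Real.log_exp, Real.log_rpow hW0, Real.log_sqrt hX0.le]
    rw [← h1]
    exact Real.log_le_log hQr0 hQle
  have hlogQ1 : Real.log Q1 = Real.log K1 + δ / 2 * Real.log W := by
    rw [hQ1d, Real.log_mul (by positivity) (by positivity), Real.log_rpow hW0]
  have hdiff : 1 ≤ ∑ p ∈ P, Real.log (p : ℝ) / ((p : ℝ) / 2 + M * Real.sqrt p) - Real.log X := by
    have h1 : 2 * (1 - η) * (Real.log Q - Real.log Q1 - 2 * Cm - 1) ≤
        2 * (1 - η) * ∑ p ∈ P, Real.log (p : ℝ) / p := by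
      have : 0 ≤ 2 * (1 - η) := by linarith
      gcongr
    have h2 : c + δ * Real.log W + Real.log X / 2 - (Real.log K1 + δ / 2 * Real.log W) - 2 * Cm - 1 ≤
        Real.log Q - Real.log Q1 - 2 * Cm - 1 := by rw [hlogQ1]; linarith
    have h3 : 2 * (1 - η) * (c + δ * Real.log W + Real.log X / 2 -
        (Real.log K1 + δ / 2 * Real.log W) - 2 * Cm - 1) ≤
        2 * (1 - η) * (Real.log Q - Real.log Q1 - 2 * Cm - 1) := by
      have : 0 ≤ 2 * (1 - η) := by linarith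
      gcongr
    have h4 : 1 + Real.log X ≤ 2 * (1 - η) * (c + δ * Real.log W + Real.log X / 2 -
        (Real.log K1 + δ / 2 * Real.log W) - 2 * Cm - 1) := by
      have e1 : c + δ * Real.log W + Real.log X / 2 -
        (Real.log K1 + δ / 2 * Real.log W) - 2 * Cm - 1 =
          (Real.log K1 + 2 * Cm + 1) + 1 + δ / 2 * Real.log W + Real.log X / 2 := by
        rw [hc]; ring
      rw [e1]
      have h5 : 0 ≤ Real.log K1 + 2 * Cm + 1 := by linarith
      have h6 : 0 ≤ δ * Real.log W := by positivity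
      have h7 : η * Real.log X ≤ δ / 4 * Real.log W := by
        rw [hη]; gcongr
      have h8 : η * (δ * Real.log W) ≤ 1 / 4 * (δ * Real.log W) := by gcongr
      nlinarith
    linarith
  have hfin : (S.card : ℝ) ≤ 2 * Q := by
    have hs0 : (0 : ℝ) ≤ S.card := Nat.cast_nonneg _
    calc (S.card : ℝ) = S.card * 1 := (mul_one _).symm
      _ ≤ S.card * (∑ p ∈ P, Real.log (p : ℝ) / ((p : ℝ) / 2 + M * Real.sqrt p) - Real.log X) := by
          gcongr
      _ ≤ _ := hmain.trans hup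
  refine hfin.trans ?_
  calc 2 * (Q : ℝ) ≤ 2 * (Qr + 1) := by gcongr
    _ ≤ 2 * (Qr + Qr) := by gcongr
    _ = 4 * K * W ^ δ * Real.sqrt X := by rw [hQr]; ring

end Pool.Agent.J6H11.PF
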