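import Mathlib
import Pool.Agent.J6H11.PF.Ls
import Pool.Agent.J6H11.PF.Bz
import Pool.Agent.N753.LS.Weil

set_option autoImplicit false

/-! The number of integers `t` for which `A f(t) + B` is a perfect square. -/

namespace Pool.Agent.J6H11.PF

open Polynomial Finset
open scoped Classical

theorem two_ndvd {p : ℕ} (hp : p.Prime) {n : ℤ} (h : ¬ (p : ℤ) ∣ 2 * n) : p % 2 = 1 := by
  rcases hp.eq_two_or_odd with h2 | h2
  · subst h2
    exact absurd (Dvd.intro n rfl) h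
  · exact h2

/-- **the number of squares** among the values of `A f + B` -/
theorem sqcount (f : ℤ[X]) (hf : 1 ≤ f.natDegree) (δ : ℝ) (hδ : 0 < δ) (hδ1 : δ ≤ 1) :
    ∃ κ C : ℝ, 0 < κ ∧ 0 < C ∧ ∀ A B : ℤ, A ≠ 0 → κ * |(A : ℝ)| < |(B : ℝ)| → ∀ X : ℝ, 1 ≤ X →
      ∀ S : Finset ℤ, (∀ x ∈ S, ∀ y ∈ S, |((x - y : ℤ) : ℝ)| ≤ X) →
      (∀ t ∈ S, ∃ w : ℤ, A * f.eval t + B = w ^ 2) →
      (S.card : ℝ) ≤ C * (X * (|(A : ℝ)| + |(B : ℝ)|)) ^ δ * Real.sqrt X := by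
  obtain ⟨χ, b, hχ0, hχ⟩ := exists_chi f hf
  obtain ⟨D, hD⟩ : ∃ D, D = χ.natDegree := ⟨_, rfl⟩
  obtain ⟨M, hM0, hM⟩ := Pool.Agent.N753.LS.weil_two f.natDegree
  obtain ⟨δ', hδ'⟩ : ∃ δ' : ℝ, δ' = δ / (D + 1) := ⟨_, rfl⟩
  have hD1 : (1 : ℝ) ≤ D + 1 := by
    have : (0 : ℝ) ≤ D := Nat.cast_nonneg _
    linarith
  have hδ'0 : 0 < δ' := by rw [hδ']; positivity
  have hδ'1 : δ' ≤ δ := by rw [hδ']; exact div_le_self hδ.le hD1
  obtain ⟨K0, hK0, hK⟩ := ls M hM0 δ' hδ'0 (hδ'1.trans hδ1)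
  have hs := sc_nonneg χ
  obtain ⟨c, hc⟩ : ∃ c : ℝ, c = 2 * |(f.leadingCoeff : ℝ)| * (sc χ + 1) := ⟨_, rfl⟩
  have hlc : f.leadingCoeff ≠ 0 := by
    rw [Ne, leadingCoeff_eq_zero]
    rintro rfl
    simp at hf
  have hlc1 : (1 : ℝ) ≤ |(f.leadingCoeff : ℝ)| := by exact_mod_cast Int.one_le_abs hlc
  have hc1 : 1 ≤ c := by rw [hc]; nlinarith
  have hc0 : 0 < c := by linarith
  refine ⟨sc χ + 1, K0 * c, by positivity, by positivity, ?_⟩
  intro A B hA hAB X hX S hS hsq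
  have hX0 : 0 < X := by linarith
  have hn := nn_ne χ hχ0 A B hAB
  have hA1 : (1 : ℝ) ≤ |(A : ℝ)| := by exact_mod_cast Int.one_le_abs hA
  have hB0 := abs_nonneg (B : ℝ)
  obtain ⟨Λ, hΛ⟩ : ∃ Λ : ℝ, Λ = |(A : ℝ)| + |(B : ℝ)| := ⟨_, rfl⟩
  rw [← hΛ]
  have hΛ1 : 1 ≤ Λ := by rw [hΛ]; linarith
  have hΛ0 : 0 < Λ := by linarith
  obtain ⟨R, hR⟩ : ∃ R : ℤ, R = 2 * (A * f.leadingCoeff * nn χ A B) := ⟨_, rfl⟩
  have hR0 : R ≠ 0 := by
    rw [hR]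
    exact mul_ne_zero two_ne_zero (mul_ne_zero (mul_ne_zero hA hlc) hn)
  have hRle : |(R : ℝ)| ≤ c * Λ ^ (D + 1) := by
    have h1 := nn_le χ A B
    rw [← hΛ, ← hD] at h1
    rw [hR]
    push_cast
    rw [abs_mul, abs_mul, abs_mul, abs_of_pos (by norm_num : (0 : ℝ) < 2)]
    have h2 : |(A : ℝ)| ≤ Λ := by rw [hΛ]; linarith
    calc 2 * (|(A : ℝ)| * |(f.leadingCoeff : ℝ)| * |(nn χ A B : ℝ)|)
        ≤ 2 * (Λ * |(f.leadingCoeff : ℝ)| * (sc χ * Λ ^ D)) := by gcongr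
      _ = 2 * |(f.leadingCoeff : ℝ)| * sc χ * Λ ^ (D + 1) := by rw [pow_succ]; ring
      _ ≤ 2 * |(f.leadingCoeff : ℝ)| * (sc χ + 1) * Λ ^ (D + 1) := by gcongr; linarith
      _ = _ := by rw [hc]
  have h1 := hK R hR0 X hX S hS (by
    intro p hp hpR
    have : Fact p.Prime := ⟨hp⟩
    rw [hR] at hpR
    have hodd := two_ndvd hp hpR
    have hpn : ¬ (p : ℤ) ∣ A * f.leadingCoeff * nn χ A B := fun h => hpR (h.mul_left _)
    obtain ⟨hg1, hg2⟩ := good_mod f χ b hf hχ A B p hpn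
    have h2 := hM (ZMod p) ((C A * f + C B).map (Int.castRingHom (ZMod p)))
      (by rw [ZMod.card]; exact hodd) (by rw [hg1]; exact hf) (by rw [hg1]) hg2 1 one_ne_zero
    rw [ZMod.card] at h2
    refine le_trans ?_ h2
    have h3 : S.image (fun t : ℤ => (t : ZMod p)) ⊆ univ.filter (fun x : ZMod p =>
        ((C A * f + C B).map (Int.castRingHom (ZMod p))).eval x = 0 ∨
        ∃ w : ZMod p, ((C A * f + C B).map (Int.castRingHom (ZMod p))).eval x = 1 * w ^ 2) := by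
      intro x hx
      rw [mem_image] at hx
      obtain ⟨t, ht, rfl⟩ := hx
      obtain ⟨w, hw⟩ := hsq t ht
      rw [mem_filter]
      refine ⟨mem_univ _, Or.inr ⟨(w : ZMod p), ?_⟩⟩
      have h4 : ((C A * f + C B).map (Int.castRingHom (ZMod p))).eval ((t : ℤ) : ZMod p) =
          (((A * f.eval t + B : ℤ)) : ZMod p) := by
        have h5 : ((t : ℤ) : ZMod p) = Int.castRingHom (ZMod p) t := rfl
        rw [h5, eval_map, eval₂_at_apply]
        simp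
      rw [h4, hw]
      push_cast
      ring
    exact_mod_cast card_le_card h3)
  refine h1.trans ?_
  have h2 : (X * |(R : ℝ)|) ^ δ' ≤ c * (X * Λ) ^ δ := by
    have h3 : X * |(R : ℝ)| ≤ c * (X * Λ) ^ (D + 1) := by
      calc X * |(R : ℝ)| ≤ X * (c * Λ ^ (D + 1)) := by gcongr
        _ ≤ X ^ (D + 1) * (c * Λ ^ (D + 1)) := by
            gcongr
            exact le_self_pow₀ hX (by omega)
        _ = _ := by rw [mul_pow]; ring
    calc (X * |(R : ℝ)|) ^ δ' ≤ (c * (X * Λ) ^ (D + 1)) ^ δ' :=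
          Real.rpow_le_rpow (by positivity) h3 hδ'0.le
      _ = c ^ δ' * ((X * Λ) ^ (D + 1)) ^ δ' := Real.mul_rpow hc0.le (by positivity)
      _ ≤ c ^ (1 : ℝ) * ((X * Λ) ^ (D + 1)) ^ δ' := by
          gcongr
          exact hδ'1.trans hδ1
      _ = c * (X * Λ) ^ δ := by
          rw [Real.rpow_one, ← Real.rpow_natCast, ← Real.rpow_mul (by positivity)]
          congr 2
          rw [hδ']
          push_cast
          field_simp
  calc K0 * (X * |(R : ℝ)|) ^ δ' * Real.sqrt X ≤ K0 * (c * (X * Λ) ^ δ) * Real.sqrt X := by gcongr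
    _ = _ := by ring

end Pool.Agent.J6H11.PF
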