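import Mathlib

set_option autoImplicit false

/-! The size of the values of a polynomial. -/

namespace Pool.Agent.J6H11.PF

open Polynomial Finset

theorem size_up (f : ℤ[X]) : ∃ G : ℝ, 1 ≤ G ∧ ∀ t : ℤ, 1 ≤ |(t : ℝ)| →
    |((f.eval t : ℤ) : ℝ)| ≤ G * |(t : ℝ)| ^ f.natDegree := by
  refine ⟨1 + ∑ i ∈ range (f.natDegree + 1), |(f.coeff i : ℝ)|, ?_, ?_⟩
  · have : 0 ≤ ∑ i ∈ range (f.natDegree + 1), |(f.coeff i : ℝ)| :=
      Finset.sum_nonneg fun _ _ => abs_nonneg _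
    linarith
  intro t ht
  rw [eval_eq_sum_range]
  push_cast
  refine (Finset.abs_sum_le_sum_abs _ _).trans ?_
  have h1 : ∑ i ∈ range (f.natDegree + 1), |(f.coeff i : ℝ) * (t : ℝ) ^ i| ≤
      (∑ i ∈ range (f.natDegree + 1), |(f.coeff i : ℝ)|) * |(t : ℝ)| ^ f.natDegree := by
    rw [Finset.sum_mul]
    refine Finset.sum_le_sum fun i hi => ?_
    rw [mem_range] at hi
    rw [abs_mul, abs_pow]
    gcongr
    omega
  refine h1.trans ?_
  gcongr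
  linarith

theorem size_low (f : ℤ[X]) (hf : 1 ≤ f.natDegree) : ∃ X0 : ℝ, 1 ≤ X0 ∧ ∀ t : ℤ, X0 ≤ |(t : ℝ)| →
    |(t : ℝ)| ^ f.natDegree ≤ 2 * |((f.eval t : ℤ) : ℝ)| := by
  obtain ⟨H, hH⟩ : ∃ H : ℝ, H = ∑ i ∈ range f.natDegree, |(f.coeff i : ℝ)| := ⟨_, rfl⟩
  have hH0 : 0 ≤ H := by
    rw [hH]; exact Finset.sum_nonneg fun _ _ => abs_nonneg _
  refine ⟨2 * H + 1, by linarith, ?_⟩
  intro t ht
  have ht1 : 1 ≤ |(t : ℝ)| := by linarith
  have hlc : f.leadingCoeff ≠ 0 := by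
    rw [Ne, leadingCoeff_eq_zero]
    rintro rfl
    simp at hf
  have hlc1 : (1 : ℝ) ≤ |(f.leadingCoeff : ℝ)| := by exact_mod_cast Int.one_le_abs hlc
  have h1 : (f.leadingCoeff : ℝ) * (t : ℝ) ^ f.natDegree = ((f.eval t : ℤ) : ℝ) -
      ∑ i ∈ range f.natDegree, (f.coeff i : ℝ) * (t : ℝ) ^ i := by
    rw [eval_eq_sum_range, Finset.sum_range_succ]
    push_cast
    rw [leadingCoeff]
    ring
  have h2 : |∑ i ∈ range f.natDegree, (f.coeff i : ℝ) * (t : ℝ) ^ i| ≤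
      H * |(t : ℝ)| ^ (f.natDegree - 1) := by
    refine (Finset.abs_sum_le_sum_abs _ _).trans ?_
    rw [hH, Finset.sum_mul]
    refine Finset.sum_le_sum fun i hi => ?_
    rw [mem_range] at hi
    rw [abs_mul, abs_pow]
    gcongr
    omega
  have h3 : |(t : ℝ)| ^ f.natDegree = |(t : ℝ)| ^ (f.natDegree - 1) * |(t : ℝ)| := by
    rw [← pow_succ]; congr 1; omega
  have h4 : 0 < |(t : ℝ)| ^ (f.natDegree - 1) := by positivity
  have h5 : H * |(t : ℝ)| ^ (f.natDegree - 1) ≤ |(t : ℝ)| ^ f.natDegree / 2 := by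
    rw [h3]
    nlinarith
  have h6 : |(t : ℝ)| ^ f.natDegree ≤ |(f.leadingCoeff : ℝ) * (t : ℝ) ^ f.natDegree| := by
    rw [abs_mul, abs_pow]
    exact le_mul_of_one_le_left (by positivity) hlc1
  rw [h1] at h6
  have h7 := abs_sub ((f.eval t : ℤ) : ℝ) (∑ i ∈ range f.natDegree, (f.coeff i : ℝ) * (t : ℝ) ^ i)
  linarith

end Pool.Agent.J6H11.PF
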