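import Mathlib
import Pool.Agent.J6H11.PF.Cnt
import Pool.Agent.J6H11.PF.Size
import Pool.Agent.Y159.QS.Coll

set_option autoImplicit false

/-! The number of members of a polynomial family with a collision at the pair `p, q`. -/

namespace Pool.Agent.J6H11.PF

open Polynomial Finset Pool.Agent.Y159.QS
open scoped Classical

/-- halving -/
theorem half_sq {x m : ℤ} (h : x ^ 2 = 4 * m) : ∃ w : ℤ, m = w ^ 2 ∧ x = 2 * w := by
  have h1 : Even (x ^ 2) := by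
    rw [h]
    exact ⟨2 * m, by ring⟩
  have h2 : Even x := (Int.even_pow' two_ne_zero).1 h1
  obtain ⟨w, hw⟩ := h2
  refine ⟨w, ?_, by rw [hw]; ring⟩
  subst hw
  nlinarith

theorem coll_f (f : ℤ[X]) (hf : 1 ≤ f.natDegree) (l : ℕ) (hl : 1 ≤ l) (ε : ℝ) (hε : 0 < ε)
    (hε1 : ε ≤ 1) : ∃ N0 C : ℝ, 1 ≤ N0 ∧ 0 < C ∧ ∀ N : ℝ, N0 ≤ N → ∀ z s : ℕ, 1 ≤ z → 1 ≤ s →
    ∀ p q : ℕ, (z : ℝ) / 2 ≤ p → p ≤ z → (z : ℝ) / 2 ≤ q → q ≤ z →
    ∀ (S : Finset ℤ) (D : ℤ → ℤ), (∀ t ∈ S, N ≤ |(t : ℝ)| ∧ |(t : ℝ)| ≤ 2 * N ∧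
      4 * f.eval t = (s : ℤ) ^ 2 * D t) →
    ((S.filter (fun t => Coll l ((150 * (z : ℝ)) ^ l) (D t) p q)).card : ℝ) ≤
      C * (N * z * s) ^ ε * ((z : ℝ) ^ l * s / Real.sqrt (N ^ f.natDegree)) * Real.sqrt N := by
  obtain ⟨δ, hδ⟩ : ∃ δ : ℝ, δ = ε / (2 * l + 2) := ⟨_, rfl⟩
  have hl1 : (1 : ℝ) ≤ l := by exact_mod_cast hl
  have hδ0 : 0 < δ := by rw [hδ]; positivity
  have hδ1 : δ ≤ 1 := by
    rw [hδ, div_le_one (by positivity)]
    linarith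
  obtain ⟨κ, C1, hκ, hC1, hcnt⟩ := sqcount f hf δ hδ0 hδ1
  obtain ⟨X0, hX01, hlow⟩ := size_low f hf
  obtain ⟨Th, hTh⟩ : ∃ Th : ℝ, Th = 4 * κ * (4 * 150 ^ 2) ^ l := ⟨_, rfl⟩
  have hTh0 : 0 < Th := by rw [hTh]; positivity
  refine ⟨max X0 (Th + 1), 8 * 150 ^ l * C1 * (20 * 150 ^ (2 * l)), hX01.trans (le_max_left _ _),
    by positivity, ?_⟩
  intro N hN z s hz hs p q hp1 hp2 hq1 hq2 S D hS
  have hNX : X0 ≤ N := (le_max_left _ _).trans hN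
  have hNT : Th < N := by
    have := (le_max_right X0 (Th + 1)).trans hN
    linarith
  have hN1 : 1 ≤ N := hX01.trans hNX
  have hN0 : 0 < N := by linarith
  have hzr : (1 : ℝ) ≤ z := by exact_mod_cast hz
  have hsr : (1 : ℝ) ≤ s := by exact_mod_cast hs
  have hz0 : (0 : ℝ) < z := by linarith
  have hs0 : (0 : ℝ) < s := by linarith
  obtain ⟨d, hd⟩ : ∃ d, d = f.natDegree := ⟨_, rfl⟩
  rw [← hd] at hf hlow ⊢
  obtain ⟨Z, hZ⟩ : ∃ Z : ℝ, Z = (150 * (z : ℝ)) ^ l := ⟨_, rfl⟩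
  rw [← hZ]
  have hZ1 : 1 ≤ Z := by rw [hZ]; exact one_le_pow₀ (by linarith)
  have hZ0 : 0 < Z := by linarith
  have hZ2 : Z ^ 2 = 150 ^ (2 * l) * (z : ℝ) ^ (2 * l) := by
    rw [hZ, ← pow_mul, mul_comm l 2, mul_pow]
  obtain ⟨M, hM⟩ : ∃ M : ℕ, M = (p * q) ^ l := ⟨_, rfl⟩
  have hMup : (M : ℝ) ≤ Z ^ 2 := by
    have hp2' : (p : ℝ) ≤ z := by exact_mod_cast hp2
    have hq2' : (q : ℝ) ≤ z := by exact_mod_cast hq2
    rw [hM, hZ]
    push_cast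
    rw [← pow_mul, mul_comm l 2, pow_mul]
    apply pow_le_pow_left₀ (by positivity)
    nlinarith [mul_le_mul hp2' hq2' (Nat.cast_nonneg q) (Nat.cast_nonneg z)]
  have hMlow : ((z : ℝ) ^ 2 / 4) ^ l ≤ M := by
    rw [hM]
    push_cast
    apply pow_le_pow_left₀ (by positivity)
    have := mul_le_mul hp1 hq1 (by positivity) (Nat.cast_nonneg p)
    linarith
  have hNd0 : 0 < N ^ d := by positivity
  have hsN : 0 < Real.sqrt (N ^ d) := Real.sqrt_pos.2 hNd0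
  have hsN2 : Real.sqrt (N ^ d) ^ 2 = N ^ d := Real.sq_sqrt hNd0.le
  have hNdN : N ≤ N ^ d := le_self_pow₀ hN1 (by omega)
  obtain ⟨Kb, hKb⟩ : ∃ Kb : ℕ, Kb = ⌊2 * Z * s / Real.sqrt (N ^ d)⌋₊ := ⟨_, rfl⟩
  have hKb' : (Kb : ℝ) ≤ 2 * Z * s / Real.sqrt (N ^ d) := by
    rw [hKb]; exact Nat.floor_le (by positivity)
  obtain ⟨G, hG⟩ : ∃ G : ℕ → ℤ → Finset ℤ, G = fun (k : ℕ) (σ : ℤ) => S.filter (fun t =>
    ∃ w : ℤ, (k : ℤ) ^ 2 * f.eval t + σ * (s : ℤ) ^ 2 * M = w ^ 2) := ⟨_, rfl⟩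
  have hsub : S.filter (fun t => Coll l Z (D t) p q) ⊆
      (Finset.Icc 1 Kb).biUnion (fun k => G k 1 ∪ G k (-1)) := by
    intro t ht
    rw [mem_filter] at ht
    obtain ⟨htS, k, a, σ, hk, hσ, h1, -, h3⟩ := ht
    obtain ⟨h4, h5, h6⟩ := hS t htS
    have h7 : (k : ℝ) * Real.sqrt (N ^ d) ≤ 2 * Z * s := by
      apply le_of_sq_le_sq _ (by positivity)
      rw [mul_pow, hsN2]
      have h8 : N ^ d ≤ 2 * |((f.eval t : ℤ) : ℝ)| := by
        refine le_trans ?_ (hlow t (hNX.trans h4))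
        gcongr
      have h9 : 4 * |((f.eval t : ℤ) : ℝ)| = (s : ℝ) ^ 2 * |(D t : ℝ)| := by
        have h10 : ((4 * f.eval t : ℤ) : ℝ) = (((s : ℤ) ^ 2 * D t : ℤ) : ℝ) := by rw [h6]
        have h11 := congrArg abs h10
        push_cast at h11
        rw [abs_mul, abs_mul, abs_of_pos (by norm_num : (0 : ℝ) < 4),
          abs_of_nonneg (by positivity : (0 : ℝ) ≤ (s : ℝ) ^ 2)] at h11
        exact h11
      calc (k : ℝ) ^ 2 * N ^ d ≤ (k : ℝ) ^ 2 * (2 * |((f.eval t : ℤ) : ℝ)|) := by gcongr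
        _ = (k : ℝ) ^ 2 * (4 * |((f.eval t : ℤ) : ℝ)|) / 2 := by ring
        _ = ((k : ℝ) ^ 2 * |(D t : ℝ)|) * (s : ℝ) ^ 2 / 2 := by rw [h9]; ring
        _ ≤ (8 * Z ^ 2) * (s : ℝ) ^ 2 / 2 := by gcongr
        _ = (2 * Z * s) ^ 2 := by ring
    have h8 : k ∈ Finset.Icc 1 Kb := by
      rw [mem_Icc]
      refine ⟨hk, ?_⟩
      rw [hKb]
      apply Nat.le_floor
      rw [le_div_iff₀ hsN]
      exact h7
    obtain ⟨w, hw, -⟩ := half_sq (x := s * a) (m := (k : ℤ) ^ 2 * f.eval t + σ * (s : ℤ) ^ 2 * M) (by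
      rw [hM]
      linear_combination (-(s : ℤ) ^ 2) * h1 - (k : ℤ) ^ 2 * h6)
    rw [mem_biUnion]
    refine ⟨k, h8, ?_⟩
    rw [mem_union]
    rcases hσ with rfl | rfl
    · left
      rw [hG, mem_filter]
      exact ⟨htS, w, hw⟩
    · right
      rw [hG, mem_filter]
      exact ⟨htS, w, hw⟩
  have hone : ∀ k ∈ Finset.Icc 1 Kb, ∀ σ : ℤ, (σ = 1 ∨ σ = -1) → ((G k σ).card : ℝ) ≤
      C1 * (20 * 150 ^ (2 * l) * (N * z * s) ^ ε) * (2 * Real.sqrt N) := by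
    intro k hk σ hσ
    rw [mem_Icc] at hk
    have hkr : (1 : ℝ) ≤ k := by exact_mod_cast hk.1
    have hσ1 : |(σ : ℝ)| = 1 := by rcases hσ with rfl | rfl <;> simp
    have hkz : (k : ℤ) ^ 2 ≠ 0 := by
      have : (k : ℤ) ≠ 0 := by exact_mod_cast (by omega : k ≠ 0)
      positivity
    have eA : |(((k : ℤ) ^ 2 : ℤ) : ℝ)| = (k : ℝ) ^ 2 := by
      push_cast
      rw [abs_of_nonneg (by positivity)]
    have eB : |((σ * (s : ℤ) ^ 2 * M : ℤ) : ℝ)| = (s : ℝ) ^ 2 * M := by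
      push_cast
      rw [abs_mul, abs_mul, hσ1, one_mul, abs_of_nonneg (by positivity), abs_of_nonneg (by positivity)]
    have hkKb : (k : ℝ) ≤ 2 * Z * s / Real.sqrt (N ^ d) := le_trans (by exact_mod_cast hk.2) hKb'
    have hk2 : (k : ℝ) ^ 2 * N ^ d ≤ (2 * Z * s) ^ 2 := by
      rw [le_div_iff₀ hsN] at hkKb
      have := pow_le_pow_left₀ (by positivity) hkKb 2
      rwa [mul_pow, hsN2] at this
    have hAB : κ * |(((k : ℤ) ^ 2 : ℤ) : ℝ)| < |((σ * (s : ℤ) ^ 2 * M : ℤ) : ℝ)| := by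
      rw [eA, eB]
      have h1 : κ * (k : ℝ) ^ 2 * N ^ d ≤ κ * (2 * Z * s) ^ 2 := by
        calc κ * (k : ℝ) ^ 2 * N ^ d = κ * ((k : ℝ) ^ 2 * N ^ d) := by ring
          _ ≤ _ := by gcongr
      have h2 : κ * (2 * Z * s) ^ 2 = Th * ((s : ℝ) ^ 2 * ((z : ℝ) ^ 2 / 4) ^ l) := by
        have e1 : (4 * 150 ^ 2 : ℝ) ^ l * ((z : ℝ) ^ 2 / 4) ^ l = 150 ^ (2 * l) * (z : ℝ) ^ (2 * l) := by
          rw [← mul_pow, pow_mul, pow_mul, ← mul_pow]
          congr 1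
          ring
        calc κ * (2 * Z * s) ^ 2 = 4 * κ * (s : ℝ) ^ 2 * Z ^ 2 := by ring
          _ = 4 * κ * (s : ℝ) ^ 2 * ((4 * 150 ^ 2 : ℝ) ^ l * ((z : ℝ) ^ 2 / 4) ^ l) := by rw [hZ2, e1]
          _ = _ := by rw [hTh]; ring
      have h3 : Th * ((s : ℝ) ^ 2 * ((z : ℝ) ^ 2 / 4) ^ l) ≤ Th * ((s : ℝ) ^ 2 * M) := by gcongr
      have h4 : 0 < (s : ℝ) ^ 2 * M := lt_of_lt_of_le (by positivity) (mul_le_mul_of_nonneg_left hMlow (by positivity))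
      have h5 : Th * ((s : ℝ) ^ 2 * M) < N ^ d * ((s : ℝ) ^ 2 * M) :=
        mul_lt_mul_of_pos_right (hNT.trans_le hNdN) h4
      have h6 : N ^ d * (κ * (k : ℝ) ^ 2) < N ^ d * ((s : ℝ) ^ 2 * M) := by
        calc N ^ d * (κ * (k : ℝ) ^ 2) = κ * (k : ℝ) ^ 2 * N ^ d := by ring
          _ ≤ Th * ((s : ℝ) ^ 2 * M) := (h1.trans (le_of_eq h2)).trans h3
          _ < _ := h5
      exact lt_of_mul_lt_mul_left h6 hNd0.le
    have h1 := hcnt ((k : ℤ) ^ 2) (σ * (s : ℤ) ^ 2 * M) hkz hAB (4 * N) (by linarith) (G k σ) (by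
      intro x hx y hy
      rw [hG, mem_filter] at hx hy
      have hx' := (hS x hx.1).2.1
      have hy' := (hS y hy.1).2.1
      push_cast
      have := abs_sub (x : ℝ) (y : ℝ)
      linarith) (by
      intro t ht
      rw [hG, mem_filter] at ht
      exact ht.2)
    rw [eA, eB] at h1
    refine h1.trans ?_
    have h2 : Real.sqrt (4 * N) = 2 * Real.sqrt N := by
      rw [Real.sqrt_mul (by norm_num)]
      congr 1
      rw [show (4 : ℝ) = 2 ^ 2 by norm_num, Real.sqrt_sq (by norm_num)]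
    rw [h2]
    have h3 : (4 * N * ((k : ℝ) ^ 2 + (s : ℝ) ^ 2 * M)) ^ δ ≤ 20 * 150 ^ (2 * l) * (N * z * s) ^ ε := by
      have h4 : (k : ℝ) ^ 2 ≤ 4 * Z ^ 2 * (s : ℝ) ^ 2 := by
        have h5 : (k : ℝ) ^ 2 * 1 ≤ (k : ℝ) ^ 2 * N ^ d := by gcongr; exact hN1.trans hNdN
        have e : (2 * Z * s) ^ 2 = 4 * Z ^ 2 * (s : ℝ) ^ 2 := by ring
        linarith
      have h5 : (s : ℝ) ^ 2 * M ≤ (s : ℝ) ^ 2 * Z ^ 2 := by gcongr
      have hNzs : 1 ≤ N * z * s := one_le_mul_of_one_le_of_one_le (one_le_mul_of_one_le_of_one_le hN1 hzr) hsr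
      have h6 : 4 * N * ((k : ℝ) ^ 2 + (s : ℝ) ^ 2 * M) ≤ (20 * 150 ^ (2 * l)) * (N * z * s) ^ (2 * l + 2) := by
        calc 4 * N * ((k : ℝ) ^ 2 + (s : ℝ) ^ 2 * M) ≤ 4 * N * (4 * Z ^ 2 * (s : ℝ) ^ 2 + (s : ℝ) ^ 2 * Z ^ 2) := by
              gcongr
          _ = (20 * 150 ^ (2 * l)) * (N * (z : ℝ) ^ (2 * l) * (s : ℝ) ^ 2) := by rw [hZ2]; ring
          _ ≤ (20 * 150 ^ (2 * l)) * (N * z * s) ^ (2 * l + 2) := by
              have h7 : N * (z : ℝ) ^ (2 * l) * (s : ℝ) ^ 2 ≤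
                  N ^ (2 * l + 2) * (z : ℝ) ^ (2 * l + 2) * (s : ℝ) ^ (2 * l + 2) := by
                gcongr
                · exact le_self_pow₀ hN1 (by omega)
                · omega
                · omega
              have e : (N * z * s) ^ (2 * l + 2) =
                N ^ (2 * l + 2) * (z : ℝ) ^ (2 * l + 2) * (s : ℝ) ^ (2 * l + 2) := by
                rw [mul_pow, mul_pow]
              rw [e]
              gcongr
      have h8 : (1 : ℝ) ≤ 20 * 150 ^ (2 * l) := by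
        have : (1 : ℝ) ≤ 150 ^ (2 * l) := one_le_pow₀ (by norm_num)
        linarith
      calc (4 * N * ((k : ℝ) ^ 2 + (s : ℝ) ^ 2 * M)) ^ δ
          ≤ ((20 * 150 ^ (2 * l)) * (N * z * s) ^ (2 * l + 2)) ^ δ :=
            Real.rpow_le_rpow (by positivity) h6 hδ0.le
        _ = (20 * 150 ^ (2 * l)) ^ δ * ((N * z * s) ^ (2 * l + 2)) ^ δ :=
            Real.mul_rpow (by positivity) (by positivity)
        _ ≤ (20 * 150 ^ (2 * l)) ^ (1 : ℝ) * ((N * z * s) ^ (2 * l + 2)) ^ δ := by gcongr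
        _ = _ := by
            rw [Real.rpow_one, ← Real.rpow_natCast (N * z * s), ← Real.rpow_mul (by positivity)]
            congr 2
            rw [hδ]
            push_cast
            field_simp
    gcongr
  have h1 : ((S.filter (fun t => Coll l Z (D t) p q)).card : ℝ) ≤
      ∑ k ∈ Finset.Icc 1 Kb, ((G k 1 ∪ G k (-1)).card : ℝ) := by
    exact_mod_cast (card_le_card hsub).trans card_biUnion_le
  refine h1.trans ?_
  obtain ⟨U, hU⟩ : ∃ U : ℝ, U = C1 * (20 * 150 ^ (2 * l) * (N * z * s) ^ ε) * (2 * Real.sqrt N) := ⟨_, rfl⟩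
  rw [← hU] at hone
  have hU0 : 0 ≤ U := by rw [hU]; positivity
  calc ∑ k ∈ Finset.Icc 1 Kb, ((G k 1 ∪ G k (-1)).card : ℝ)
      ≤ ∑ k ∈ Finset.Icc 1 Kb, (2 * U) := by
        apply Finset.sum_le_sum
        intro k hk
        have h2 : ((G k 1 ∪ G k (-1)).card : ℝ) ≤ (G k 1).card + (G k (-1)).card := by
          exact_mod_cast card_union_le _ _
        have h3 := hone k hk 1 (Or.inl rfl)
        have h4 := hone k hk (-1) (Or.inr rfl)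
        linarith
    _ = Kb * (2 * U) := by
        rw [sum_const, nsmul_eq_mul, Nat.card_Icc, Nat.add_sub_cancel]
    _ ≤ (2 * Z * s / Real.sqrt (N ^ d)) * (2 * U) := by gcongr
    _ = _ := by
        have e1 : Z = 150 ^ l * (z : ℝ) ^ l := by rw [hZ, mul_pow]
        rw [hU, e1]
        ring

end Pool.Agent.J6H11.PF
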