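import Mathlib
import Pool.Agent.J6H11.PF.Col
import Pool.Agent.Y159.QS.Single
import Pool.Agent.TH869.EVF.Dy

set_option autoImplicit false

/-! The sum of the numbers of collisions over a polynomial family. -/

namespace Pool.Agent.J6H11.PF

open Polynomial Finset Pool.Agent.TH869.EVF Pool.Agent.Y159.QS
open scoped Classical

theorem sum_s (f : ℤ[X]) (hf : 1 ≤ f.natDegree) (l : ℕ) (hl : 1 ≤ l) (ε : ℝ) (hε : 0 < ε)
    (hε1 : ε ≤ 1) : ∃ N0 C : ℝ, 1 ≤ N0 ∧ 0 < C ∧ ∀ N : ℝ, N0 ≤ N → ∀ z s : ℕ, 1 ≤ z → 1 ≤ s →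
    ∀ (S : Finset ℤ) (D : ℤ → ℤ), (∀ t ∈ S, N ≤ |(t : ℝ)| ∧ |(t : ℝ)| ≤ 2 * N ∧
      4 * f.eval t = (s : ℤ) ^ 2 * D t) →
    ∑ t ∈ S, (EC l ((150 * (z : ℝ)) ^ l) (D t) (Qz z) : ℝ) ≤
      ((Qz z).card : ℝ) ^ 2 * (C * (N * z * s) ^ ε *
        ((z : ℝ) ^ l * s / Real.sqrt (N ^ f.natDegree)) * Real.sqrt N) := by
  obtain ⟨N0, C, hN01, hC0, hC⟩ := coll_f f hf l hl ε hε hε1
  refine ⟨N0, C, hN01, hC0, ?_⟩
  intro N hN z s hz hs S D hS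
  obtain ⟨Z, hZ⟩ : ∃ Z : ℝ, Z = (150 * (z : ℝ)) ^ l := ⟨_, rfl⟩
  rw [← hZ]
  have hswap : ∑ t ∈ S, (EC l Z (D t) (Qz z) : ℝ) ≤
      ∑ x ∈ Qz z ×ˢ Qz z, ((S.filter (fun t => Coll l Z (D t) x.1 x.2)).card : ℝ) := by
    have e1 : ∀ t ∈ S, (EC l Z (D t) (Qz z) : ℝ) ≤
        ∑ x ∈ Qz z ×ˢ Qz z, if Coll l Z (D t) x.1 x.2 then (1 : ℝ) else 0 := by
      intro t _
      have e2 : EC l Z (D t) (Qz z) ≤
          ((Qz z ×ˢ Qz z).filter (fun x => Coll l Z (D t) x.1 x.2)).card := by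
        unfold EC
        apply card_le_card
        intro x hx
        rw [mem_filter] at hx ⊢
        exact ⟨hx.1, hx.2.2⟩
      rw [← Finset.sum_filter, sum_const, nsmul_eq_mul, mul_one]
      exact_mod_cast e2
    refine (Finset.sum_le_sum e1).trans (le_of_eq ?_)
    rw [Finset.sum_comm]
    refine Finset.sum_congr rfl fun x _ => ?_
    rw [← Finset.sum_filter, sum_const, nsmul_eq_mul, mul_one]
  refine hswap.trans ?_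
  have hone : ∀ x ∈ Qz z ×ˢ Qz z,
      ((S.filter (fun t => Coll l Z (D t) x.1 x.2)).card : ℝ) ≤
      C * (N * z * s) ^ ε * ((z : ℝ) ^ l * s / Real.sqrt (N ^ f.natDegree)) * Real.sqrt N := by
    intro x hx
    rw [mem_product] at hx
    obtain ⟨-, hp2, hp3⟩ := mem_Qz hx.1
    obtain ⟨-, hq2, hq3⟩ := mem_Qz hx.2
    rw [hZ]
    exact hC N hN z s hz hs x.1 x.2 hp2 hp3 hq2 hq3 S D hS
  refine (Finset.sum_le_sum hone).trans (le_of_eq ?_)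
  rw [sum_const, nsmul_eq_mul, card_product]
  push_cast
  ring

/-- the weighted sum of the numbers of collisions -/
theorem sum_w (f : ℤ[X]) (hf : 1 ≤ f.natDegree) (l : ℕ) (hl : 1 ≤ l) (ε : ℝ) (hε : 0 < ε)
    (hε1 : ε ≤ 1) : ∃ N0 C : ℝ, 1 ≤ N0 ∧ 0 < C ∧ ∀ N : ℝ, N0 ≤ N → ∀ z Y : ℕ, 1 ≤ z → 1 ≤ Y →
    ∀ (S : Finset ℤ) (D : ℤ → ℤ) (s : ℤ → ℕ), (∀ t ∈ S, N ≤ |(t : ℝ)| ∧ |(t : ℝ)| ≤ 2 * N ∧
      1 ≤ s t ∧ s t ≤ Y ∧ 4 * f.eval t = (s t : ℤ) ^ 2 * D t) →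
    ∑ t ∈ S, (EC l ((150 * (z : ℝ)) ^ l) (D t) (Qz z) : ℝ) / s t ≤
      ((Qz z).card : ℝ) ^ 2 * (C * (N * z * Y) ^ ε * Y *
        ((z : ℝ) ^ l / Real.sqrt (N ^ f.natDegree)) * Real.sqrt N) := by
  obtain ⟨N0, C, hN01, hC0, hC⟩ := sum_s f hf l hl ε hε hε1
  refine ⟨N0, C, hN01, hC0, ?_⟩
  intro N hN z Y hz hY S D s hS
  have hN1 : 1 ≤ N := hN01.trans hN
  have hmaps : ∀ t ∈ S, s t ∈ Finset.Icc 1 Y := fun t ht => by
    rw [mem_Icc]; exact ⟨(hS t ht).2.2.1, (hS t ht).2.2.2.1⟩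
  rw [← Finset.sum_fiberwise_of_maps_to hmaps]
  have hone : ∀ σ ∈ Finset.Icc 1 Y, ∑ t ∈ S with s t = σ,
      (EC l ((150 * (z : ℝ)) ^ l) (D t) (Qz z) : ℝ) / s t ≤
      ((Qz z).card : ℝ) ^ 2 * (C * (N * z * Y) ^ ε *
        ((z : ℝ) ^ l / Real.sqrt (N ^ f.natDegree)) * Real.sqrt N) := by
    intro σ hσ
    rw [mem_Icc] at hσ
    have hσr : (1 : ℝ) ≤ σ := by exact_mod_cast hσ.1
    have hσY : (σ : ℝ) ≤ Y := by exact_mod_cast hσ.2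
    have e1 : ∑ t ∈ S with s t = σ, (EC l ((150 * (z : ℝ)) ^ l) (D t) (Qz z) : ℝ) / s t =
        (∑ t ∈ S with s t = σ, (EC l ((150 * (z : ℝ)) ^ l) (D t) (Qz z) : ℝ)) / σ := by
      rw [Finset.sum_div]
      refine Finset.sum_congr rfl fun t ht => ?_
      rw [(mem_filter.1 ht).2]
    rw [e1, div_le_iff₀ (by linarith)]
    refine (hC N hN z σ hz hσ.1 (S.filter fun t => s t = σ) D (by
      intro t ht
      rw [mem_filter] at ht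
      obtain ⟨h1, h2, -, -, h3⟩ := hS t ht.1
      rw [ht.2] at h3
      exact ⟨h1, h2, h3⟩)).trans ?_
    have h1 : (N * z * σ) ^ ε ≤ (N * z * Y) ^ ε := by
      apply Real.rpow_le_rpow (by positivity) _ hε.le
      gcongr
    calc ((Qz z).card : ℝ) ^ 2 * (C * (N * z * σ) ^ ε *
          ((z : ℝ) ^ l * σ / Real.sqrt (N ^ f.natDegree)) * Real.sqrt N)
        ≤ ((Qz z).card : ℝ) ^ 2 * (C * (N * z * Y) ^ ε *
          ((z : ℝ) ^ l * σ / Real.sqrt (N ^ f.natDegree)) * Real.sqrt N) := by gcongr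
      _ = _ := by ring
  refine (Finset.sum_le_sum hone).trans (le_of_eq ?_)
  rw [sum_const, nsmul_eq_mul, Nat.card_Icc, Nat.add_sub_cancel]
  ring

end Pool.Agent.J6H11.PF
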