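import Mathlib
import Pool.Agent.J6H11.PF.Sum
import Pool.Agent.Y159.TQ.Short
import Pool.Agent.Y542.TQ.Sup

set_option autoImplicit false

/-! Moments of the torsion of class groups of quadratic fields in polynomial families: one block. -/

namespace Pool.Agent.J6H11.PF

open NumberField Finset Pool.Agent.TH869.EVF Pool.Agent.Y159.QS Pool.Agent.Y159.TQ
open scoped Classical

/-- residues of the discriminant -/
theorem qr_disc {p : ℕ} (hp : p.Prime) (hp2 : p ≠ 2) {F D : ℤ} {s : ℕ}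
    (h : 4 * F = (s : ℤ) ^ 2 * D) (hj : jacobiSym F p = 1) : QR p D ∧ ¬ p ∣ D.natAbs := by
  have : Fact p.Prime := ⟨hp⟩
  obtain ⟨⟨r, hr1, hr2⟩, -⟩ := qr_of_js hp hp2 hj
  have h1 : (4 : ZMod p) * (F : ZMod p) = (s : ZMod p) ^ 2 * (D : ZMod p) := by
    have := congrArg (Int.cast : ℤ → ZMod p) h
    push_cast at this
    exact this
  have h2 : (2 * r) ^ 2 = (s : ZMod p) ^ 2 * (D : ZMod p) := by
    rw [← h1, ← hr1]; ring
  have h3 : (s : ZMod p) ≠ 0 := by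
    intro h0
    rw [h0] at h2
    exact hr2 (pow_eq_zero_iff two_ne_zero |>.1 (by rw [h2]; ring))
  have h4 : (D : ZMod p) ≠ 0 := by
    intro h0
    rw [h0, mul_zero] at h2
    exact hr2 (pow_eq_zero_iff two_ne_zero |>.1 h2)
  have h20 : (2 : ZMod p) ≠ 0 := left_ne_zero_of_mul hr2
  refine ⟨⟨2 * r / s, ?_, ?_⟩, ?_⟩
  · rw [div_pow, h2]
    field_simp
  · exact mul_ne_zero h20 (div_ne_zero hr2 h3)
  · intro hd
    apply h4
    rw [ZMod.intCast_zmod_eq_zero_iff_dvd]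
    exact Int.natCast_dvd.mpr hd

theorem disc_bd {D s A e : ℝ} (hD : 0 ≤ D) (hs : 1 ≤ s) (h : s ^ 2 * D ≤ A) (he : 0 ≤ e) :
    s * D ^ (1 / 2 + e) ≤ A ^ (1 / 2 + e) := by
  have hs0 : 0 < s := by linarith
  have h1 : s ≤ (s ^ 2) ^ (1 / 2 + e) := by
    have h2 : (s ^ 2) ^ ((1 : ℝ) / 2) = s := by
      rw [← Real.sqrt_eq_rpow, Real.sqrt_sq hs0.le]
    calc s = (s ^ 2) ^ ((1 : ℝ) / 2) := h2.symm
      _ ≤ _ := Real.rpow_le_rpow_of_exponent_le (one_le_pow₀ hs) (by linarith)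
  calc s * D ^ (1 / 2 + e) ≤ (s ^ 2) ^ (1 / 2 + e) * D ^ (1 / 2 + e) := by gcongr
    _ = (s ^ 2 * D) ^ (1 / 2 + e) := (Real.mul_rpow (by positivity) hD).symm
    _ ≤ _ := Real.rpow_le_rpow (by positivity) h (by linarith)

theorem three {C D F a b c e : ℝ} (hC : 0 ≤ C) (hD : 0 ≤ D) (hF : 0 ≤ F) (ha : 0 ≤ a) (hb : 0 ≤ b)
    (hc : 0 ≤ c) (he : 0 ≤ e) :
    F * a + 2 * C * (F * b) + 4 * D * (F * (c + e)) ≤ (1 + 2 * C + 4 * D) * F * (a + b + c + e) := by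
  have h1 : 0 ≤ F * a := mul_nonneg hF ha
  have h2 : 0 ≤ F * b := mul_nonneg hF hb
  have h3 : 0 ≤ F * c := mul_nonneg hF hc
  have h4 : 0 ≤ F * e := mul_nonneg hF he
  have e1 : (1 + 2 * C + 4 * D) * F * (a + b + c + e) = F * a + 2 * C * (F * b) + 4 * D * (F * (c + e)) +
      (F * b + F * c + F * e + 2 * (C * (F * a)) + 2 * (C * (F * c)) + 2 * (C * (F * e)) +
        4 * (D * (F * a)) + 4 * (D * (F * b))) := by ring
  rw [e1]
  have := mul_nonneg hC h1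
  have := mul_nonneg hC h3
  have := mul_nonneg hC h4
  have := mul_nonneg hD h1
  have := mul_nonneg hD h2
  linarith

theorem block (f : Polynomial ℤ) (hf : 1 ≤ f.natDegree)
    (hns : ∀ (c : ℚ) (g : Polynomial ℚ), f.map (Int.castRingHom ℚ) ≠ Polynomial.C c * g ^ 2)
    (l r m : ℕ) (hl : 1 ≤ l) (hr : 1 ≤ r) (hm : 1 ≤ m) (ε : ℝ) (hε : 0 < ε) (hεle : ε ≤ 1) :
    ∃ Cc : ℝ, 0 < Cc ∧ ∀ N y Y : ℝ, 1 ≤ N → 1 ≤ y → y ≤ N → 1 ≤ Y →
    ∀ (S : Finset ℤ) (K : ℤ → Type) [∀ t, Field (K t)] [∀ t, NumberField (K t)] (s : ℤ → ℕ),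
    (∀ t ∈ S, (N ≤ |(t : ℝ)| ∧ |(t : ℝ)| ≤ 2 * N) ∧ Module.finrank ℚ (K t) = 2 ∧
      1 ≤ s t ∧ (s t : ℝ) ≤ 2 * Y ∧ 4 * f.eval t = (s t : ℤ) ^ 2 * discr (K t)) →
    ∑ t ∈ S, (Nat.card {x : ClassGroup (𝓞 (K t)) // x ^ l = 1} : ℝ) ^ r ≤
      Cc * N ^ ε * Real.sqrt (N ^ f.natDegree) ^ r *
        (S.card / y ^ r + Y * (y ^ l / Real.sqrt (N ^ f.natDegree)) * Real.sqrt N + N / y ^ m +
          y ^ (2 * m)) := by
  have hlr : (1 : ℝ) ≤ l := by exact_mod_cast hl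
  have hrr : (1 : ℝ) ≤ r := by exact_mod_cast hr
  have hmr : (1 : ℝ) ≤ m := by exact_mod_cast hm
  obtain ⟨d, hd⟩ : ∃ d, d = f.natDegree := ⟨_, rfl⟩
  have hdr : (1 : ℝ) ≤ d := by rw [hd]; exact_mod_cast hf
  obtain ⟨κ, hκ⟩ : ∃ κ : ℝ, κ = ε / (2 * r) := ⟨_, rfl⟩
  have hκ0 : 0 < κ := by rw [hκ]; positivity
  have hκr : κ * r = ε / 2 := by rw [hκ]; field_simp
  obtain ⟨ε1, hε1⟩ : ∃ ε1 : ℝ, ε1 = min (ε / (3 * (d * r + r + m))) (1 / 2) := ⟨_, rfl⟩
  have hε10 : 0 < ε1 := by rw [hε1]; exact lt_min (by positivity) (by norm_num)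
  have hε1h : ε1 ≤ 1 / 2 := by rw [hε1]; exact min_le_right _ _
  have hε1s : (d * r + r + m) * ε1 ≤ ε / 3 := by
    have h1 : ε1 ≤ ε / (3 * (d * r + r + m)) := by rw [hε1]; exact min_le_left _ _
    rw [le_div_iff₀ (by positivity)] at h1
    linarith
  have hdr0 : 0 ≤ (d : ℝ) * r * ε1 := by positivity
  have hr0 : 0 ≤ (r : ℝ) * ε1 := by positivity
  have hm0 : 0 ≤ (m : ℝ) * ε1 := by positivity
  obtain ⟨ε2, hε2⟩ : ∃ ε2 : ℝ, ε2 = ε / (3 * (2 + d)) := ⟨_, rfl⟩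
  have hε20 : 0 < ε2 := by rw [hε2]; positivity
  have hε21 : ε2 ≤ 1 := by
    rw [hε2, div_le_one (by positivity)]
    linarith
  have hε2d : (2 + d) * ε2 = ε / 3 := by rw [hε2]; field_simp
  obtain ⟨C0, hC00, hC0⟩ := single ε1 hε10
  obtain ⟨N1, C3, hN11, hC30, hC3⟩ := sum_w f hf l hl ε2 hε20 hε21
  obtain ⟨C4, Y0, hC40, hY01, hC4⟩ := Pool.Agent.Y542.TQ.sup f hns m hm ε1 hε10 hε1h
  obtain ⟨G, hG1, hG⟩ := size_up f
  rw [← hd] at hG hC3 ⊢
  obtain ⟨G2, hG2⟩ : ∃ G2 : ℝ, G2 = 4 * G * 2 ^ d := ⟨_, rfl⟩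
  have hG21 : 1 ≤ G2 := by
    rw [hG2]
    have : (1 : ℝ) ≤ 2 ^ d := one_le_pow₀ (by norm_num)
    nlinarith
  have hG20 : 0 < G2 := by linarith
  obtain ⟨Bd, hBd⟩ : ∃ Bd : ℝ, Bd = C0 * G2 := ⟨_, rfl⟩
  have hBd0 : 0 < Bd := by rw [hBd]; positivity
  obtain ⟨X2, hX21, hX2⟩ := Pool.Agent.Y159.PT.large_N (1 / Y0) (8 * Real.log G2 + 7) 0 (8 * d)
    (κ / 2) κ (by positivity) (by positivity) hκ0
  obtain ⟨X1, hX1⟩ : ∃ X1 : ℝ, X1 = max X2 N1 := ⟨_, rfl⟩
  have hX11 : 1 ≤ X1 := by rw [hX1]; exact hX21.trans (le_max_left _ _)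
  obtain ⟨Cbig, hCbig⟩ : ∃ Cb : ℝ, Cb = (1024 * Bd) ^ r * 2 ^ (r - 1) * (1 + 2 * C3 * G2 + 4 * C4) :=
    ⟨_, rfl⟩
  obtain ⟨Csm, hCsm⟩ : ∃ Cs : ℝ, Cs = X1 ^ r * Bd ^ r := ⟨_, rfl⟩
  have hCbig0 : 0 < Cbig := by rw [hCbig]; positivity
  have hCsm0 : 0 < Csm := by rw [hCsm]; positivity
  refine ⟨Cbig + Csm, by positivity, ?_⟩
  intro N y Y hN hy hyN hY S K _ _ s hS
  have hN0 : 0 < N := by linarith
  have hy0 : 0 < y := by linarith
  have hY0 : 0 < Y := by linarith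
  obtain ⟨Q, hQ⟩ : ∃ Q : ℝ, Q = Real.sqrt (N ^ d) := ⟨_, rfl⟩
  rw [← hQ]
  have hNd1 : 1 ≤ N ^ d := one_le_pow₀ hN
  have hQ1 : 1 ≤ Q := by rw [hQ, Real.one_le_sqrt]; exact hNd1
  have hQ0 : 0 < Q := by linarith
  obtain ⟨F, hF⟩ : ∃ F : ℝ, F = N ^ (ε / 3) := ⟨_, rfl⟩
  have hF1 : 1 ≤ F := by rw [hF]; exact Real.one_le_rpow hN (by positivity)
  have hFε : F ^ 2 ≤ N ^ ε := by
    rw [hF, ← Real.rpow_natCast, ← Real.rpow_mul hN0.le]
    apply Real.rpow_le_rpow_of_exponent_le hN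
    push_cast; linarith
  have hT4 : 0 ≤ S.card / y ^ r + Y * (y ^ l / Q) * Real.sqrt N + N / y ^ m + y ^ (2 * m) := by
    positivity
  obtain ⟨B, hB⟩ : ∃ B : ℝ, B = C0 * (G2 * N ^ d) ^ (1 / 2 + ε1) := ⟨_, rfl⟩
  have hB0 : 0 < B := by rw [hB]; positivity
  have hBle : B ≤ Bd * Q * N ^ (d * ε1) := by
    have h1 : (G2 * N ^ d) ^ (1 / 2 + ε1) ≤ G2 * (Q * N ^ (d * ε1)) := by
      calc (G2 * N ^ d) ^ (1 / 2 + ε1) = G2 ^ (1 / 2 + ε1) * (N ^ d) ^ (1 / 2 + ε1) :=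
            Real.mul_rpow hG20.le (by positivity)
        _ ≤ G2 ^ (1 : ℝ) * (N ^ d) ^ (1 / 2 + ε1) := by
            gcongr
            linarith
        _ = _ := by
            rw [Real.rpow_one, Real.rpow_add (by positivity), ← Real.sqrt_eq_rpow, ← hQ,
              ← Real.rpow_natCast N d, ← Real.rpow_mul hN0.le]
    rw [hB, hBd]
    calc C0 * (G2 * N ^ d) ^ (1 / 2 + ε1) ≤ C0 * (G2 * (Q * N ^ (d * ε1))) := by gcongr
      _ = _ := by ring
  have hBr : B ^ r ≤ Bd ^ r * Q ^ r * F := by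
    have h1 : (N ^ ((d : ℝ) * ε1)) ^ r ≤ F := by
      rw [← Real.rpow_natCast, ← Real.rpow_mul hN0.le, hF]
      apply Real.rpow_le_rpow_of_exponent_le hN
      have : (d : ℝ) * ε1 * r = d * r * ε1 := by ring
      rw [this]
      nlinarith
    calc B ^ r ≤ (Bd * Q * N ^ (d * ε1)) ^ r := pow_le_pow_left₀ hB0.le hBle r
      _ = Bd ^ r * Q ^ r * (N ^ (d * ε1)) ^ r := by rw [mul_pow, mul_pow]
      _ ≤ _ := by gcongr
  -- the discriminants
  have hup : ∀ t ∈ S, (s t : ℝ) ^ 2 * |(discr (K t) : ℝ)| ≤ G2 * N ^ d := by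
    intro t ht
    obtain ⟨⟨h1, h2⟩, -, h3, -, h4⟩ := hS t ht
    have h5 : (s t : ℝ) ^ 2 * |(discr (K t) : ℝ)| = 4 * |((f.eval t : ℤ) : ℝ)| := by
      have h6 : ((4 * f.eval t : ℤ) : ℝ) = (((s t : ℤ) ^ 2 * discr (K t) : ℤ) : ℝ) := by rw [h4]
      have h7 := congrArg abs h6
      push_cast at h7
      rw [abs_mul, abs_mul, abs_of_pos (by norm_num : (0 : ℝ) < 4),
        abs_of_nonneg (by positivity : (0 : ℝ) ≤ (s t : ℝ) ^ 2)] at h7
      exact h7.symm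
    rw [h5]
    have h6 := hG t (hN.trans h1)
    calc 4 * |((f.eval t : ℤ) : ℝ)| ≤ 4 * (G * |(t : ℝ)| ^ d) := by gcongr
      _ ≤ 4 * (G * (2 * N) ^ d) := by gcongr
      _ = _ := by rw [hG2, mul_pow]; ring
  have hsr : ∀ t ∈ S, (1 : ℝ) ≤ s t := fun t ht => by exact_mod_cast (hS t ht).2.2.1
  have hDB : ∀ t ∈ S, C0 * |(discr (K t) : ℝ)| ^ (1 / 2 + ε1) ≤ B / s t := by
    intro t ht
    have h1 := disc_bd (abs_nonneg (discr (K t) : ℝ)) (hsr t ht) (hup t ht) hε10.le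
    have h2 : (0 : ℝ) < s t := by linarith [hsr t ht]
    rw [le_div_iff₀ h2, hB]
    calc C0 * |(discr (K t) : ℝ)| ^ (1 / 2 + ε1) * s t = C0 * (s t * |(discr (K t) : ℝ)| ^ (1 / 2 + ε1)) := by
          ring
      _ ≤ _ := by gcongr
  have hBs : ∀ t ∈ S, B / s t ≤ B := fun t ht => div_le_self hB0.le (hsr t ht)
  obtain ⟨T, hT⟩ : ∃ T : ℤ → ℝ, T = fun t => (Nat.card {x : ClassGroup (𝓞 (K t)) // x ^ l = 1} : ℝ) :=
    ⟨_, rfl⟩
  have hTe : ∀ t, (Nat.card {x : ClassGroup (𝓞 (K t)) // x ^ l = 1} : ℝ) = T t := fun t => by rw [hT]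
  simp only [hTe]
  have hT0 : ∀ t, 0 ≤ T t := fun t => by rw [hT]; exact Nat.cast_nonneg _
  have hTB : ∀ t ∈ S, T t ≤ B := by
    intro t ht
    have h1 := (hC0 l hl (K t) (hS t ht).2.1 0 ∅ (by simp)).1
    rw [hTe] at h1
    exact (h1.trans (hDB t ht)).trans (hBs t ht)
  -- small cases
  have hsmall : y ^ r ≤ X1 ^ r * N ^ (ε / 2) → ∑ t ∈ S, T t ^ r ≤ (Cbig + Csm) * N ^ ε * Q ^ r *
      (S.card / y ^ r + Y * (y ^ l / Q) * Real.sqrt N + N / y ^ m + y ^ (2 * m)) := by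
    intro hyr
    have h1 : ∑ t ∈ S, T t ^ r ≤ S.card * B ^ r := by
      calc ∑ t ∈ S, T t ^ r ≤ ∑ t ∈ S, B ^ r :=
            Finset.sum_le_sum fun t ht => pow_le_pow_left₀ (hT0 t) (hTB t ht) r
        _ = S.card * B ^ r := by rw [sum_const, nsmul_eq_mul]
    have h2 : S.card * B ^ r ≤ Csm * N ^ ε * Q ^ r * (S.card / y ^ r) := by
      have h3 : y ^ r * B ^ r ≤ Csm * N ^ ε * Q ^ r := by
        calc y ^ r * B ^ r ≤ (X1 ^ r * N ^ (ε / 2)) * (Bd ^ r * Q ^ r * F) := by gcongr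
          _ = X1 ^ r * Bd ^ r * (N ^ (ε / 2) * F) * Q ^ r := by ring
          _ ≤ X1 ^ r * Bd ^ r * N ^ ε * Q ^ r := by
              gcongr
              rw [hF, ← Real.rpow_add hN0]
              apply Real.rpow_le_rpow_of_exponent_le hN
              linarith
          _ = _ := by rw [hCsm]
      have hyr0 : 0 < y ^ r := by positivity
      calc (S.card : ℝ) * B ^ r = (S.card / y ^ r) * (y ^ r * B ^ r) := by field_simp
        _ ≤ (S.card / y ^ r) * (Csm * N ^ ε * Q ^ r) := by gcongr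
        _ = _ := by ring
    refine h1.trans (h2.trans ?_)
    have h4 : (S.card : ℝ) / y ^ r ≤
        S.card / y ^ r + Y * (y ^ l / Q) * Real.sqrt N + N / y ^ m + y ^ (2 * m) := by
      have h5 : 0 ≤ Y * (y ^ l / Q) * Real.sqrt N := by positivity
      have h6 : 0 ≤ N / y ^ m := by positivity
      have h7 : 0 ≤ y ^ (2 * m) := by positivity
      linarith
    have h5 : Csm ≤ Cbig + Csm := by linarith
    gcongr
  rcases lt_or_ge N X1 with hXX | hXX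
  · apply hsmall
    have h1 : y ^ r ≤ X1 ^ r := by
      have : y ≤ X1 := by linarith
      gcongr
    have h2 : 1 ≤ N ^ (ε / 2) := Real.one_le_rpow hN (by positivity)
    have h3 : 0 ≤ X1 ^ r := by positivity
    nlinarith
  rcases lt_or_ge y (N ^ κ) with hyκ | hyκ
  · apply hsmall
    have h1 : y ^ r ≤ N ^ (ε / 2) := by
      calc y ^ r ≤ (N ^ κ) ^ r := by gcongr
        _ = N ^ (ε / 2) := by rw [← Real.rpow_natCast, ← Real.rpow_mul hN0.le, hκr]
    have h2 : (1 : ℝ) ≤ X1 ^ r := one_le_pow₀ hX11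
    have h3 : 0 ≤ N ^ (ε / 2) := by positivity
    nlinarith
  -- the main case
  obtain ⟨e1, e2⟩ := hX2 N (by rw [hX1] at hXX; exact (le_max_left _ _).trans hXX)
  have hNN1 : N1 ≤ N := by rw [hX1] at hXX; exact (le_max_right _ _).trans hXX
  have hYy : Y0 ≤ y := by
    have h1 : Y0 ≤ N ^ κ := by
      rw [Real.rpow_neg hN0.le, inv_eq_one_div] at e1
      exact (one_div_le_one_div (by positivity) (by linarith)).mp e1
    exact h1.trans hyκ
  obtain ⟨z, hzy, hz, hbad⟩ := hC4 y hYy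
  obtain ⟨N0, hN0d⟩ : ∃ N0 : ℝ, N0 = ((Qz z).card : ℝ) := ⟨_, rfl⟩
  rw [← hN0d] at hz
  have hN01 : 1 ≤ N0 := by
    refine le_trans ?_ hz
    exact Real.one_le_rpow hy (by linarith)
  have hN0p : 0 < N0 := by linarith
  have hlogN : 8 * Real.log G2 + 7 + 8 * d * Real.log N ≤ N0 := by
    have h1 : (1 / Y0) * N ^ (κ / 2) ≤ N ^ (κ / 2) := by
      have : 1 / Y0 ≤ 1 := by rw [div_le_one (by linarith)]; exact hY01
      have hp : 0 < N ^ (κ / 2) := Real.rpow_pos_of_pos hN0 _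
      nlinarith
    have h2 : N ^ (κ / 2) ≤ y ^ (1 - ε1) := by
      calc N ^ (κ / 2) = (N ^ κ) ^ ((1 : ℝ) / 2) := by
            rw [← Real.rpow_mul hN0.le]; congr 1; ring
        _ ≤ y ^ ((1 : ℝ) / 2) := Real.rpow_le_rpow (by positivity) hyκ (by norm_num)
        _ ≤ y ^ (1 - ε1) := Real.rpow_le_rpow_of_exponent_le hy (by linarith)
    linarith
  have hlogN0 : 0 ≤ Real.log N := Real.log_nonneg hN
  have hlogG0 : 0 ≤ Real.log G2 := Real.log_nonneg hG21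
  have hQz : (Qz z).card ≤ z := by
    have h1 : Qz z ⊆ Finset.Icc 1 z := by
      intro p hp
      obtain ⟨hpp, -, hpz⟩ := mem_Qz hp
      exact Finset.mem_Icc.mpr ⟨hpp.one_lt.le, hpz⟩
    have h2 := card_le_card h1
    rw [Nat.card_Icc] at h2
    omega
  have hz7 : (7 : ℝ) ≤ z := by
    have h2 : N0 ≤ z := by rw [hN0d]; exact_mod_cast hQz
    have : 0 ≤ 8 * (d : ℝ) * Real.log N := by positivity
    linarith
  have hz1 : 1 ≤ z := by
    have : (1 : ℝ) ≤ z := by linarith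
    exact_mod_cast this
  obtain ⟨Z, hZ⟩ : ∃ Z : ℝ, Z = (150 * (z : ℝ)) ^ l := ⟨_, rfl⟩
  obtain ⟨W, hW⟩ : ∃ W : ℝ, W = (1024 * B) ^ r * 2 ^ (r - 1) := ⟨_, rfl⟩
  have hW0 : 0 < W := by rw [hW]; positivity
  obtain ⟨bad, hbadd⟩ : ∃ bad : Finset ℤ, bad = S.filter (fun t => ((Qz z).card : ℝ) / 4 <
    |∑ p ∈ Qz z, (jacobiSym (f.eval t) p : ℝ)|) := ⟨_, rfl⟩
  have hpt : ∀ t ∈ S, T t ^ r ≤ W * ((1 / N0) ^ r +
      (EC l Z (discr (K t)) (Qz z) : ℝ) / s t / N0 ^ 2 + if t ∈ bad then 1 else 0) := by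
    intro t ht
    have hs0 : (0 : ℝ) < s t := by linarith [hsr t ht]
    have hE0 : (0 : ℝ) ≤ (EC l Z (discr (K t)) (Qz z) : ℝ) / s t / N0 ^ 2 := by positivity
    have hB1 : B ^ r ≤ W := by
      have h3 : (1 : ℝ) ≤ 1024 ^ r := one_le_pow₀ (by norm_num)
      have h4 : (1 : ℝ) ≤ 2 ^ (r - 1) := one_le_pow₀ (by norm_num)
      calc B ^ r = 1 * B ^ r * 1 := by ring
        _ ≤ 1024 ^ r * B ^ r * 2 ^ (r - 1) := by gcongr
        _ = W := by rw [hW, mul_pow 1024 B r]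
    by_cases hDb : t ∈ bad
    · rw [if_pos hDb]
      have h1 : T t ^ r ≤ B ^ r := pow_le_pow_left₀ (hT0 t) (hTB t ht) r
      have h5 : 0 ≤ (1 / N0) ^ r := by positivity
      nlinarith
    · rw [if_neg hDb, add_zero]
      obtain ⟨D, hD⟩ : ∃ D : ℤ, D = f.eval t := ⟨_, rfl⟩
      have hrel := (hS t ht).2.2.2.2
      rw [← hD] at hrel
      have hdne : discr (K t) ≠ 0 := NumberField.discr_ne_zero _
      have hDne : D ≠ 0 := by
        rintro h0
        rw [h0, mul_zero] at hrel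
        have h1 : ((s t : ℤ) ^ 2) ≠ 0 := by
          have : (s t : ℤ) ≠ 0 := by
            have := (hS t ht).2.2.1
            exact_mod_cast (by omega : s t ≠ 0)
          positivity
        exact (mul_ne_zero h1 hdne) hrel.symm
      have hgood : |∑ p ∈ Qz z, (jacobiSym D p : ℝ)| ≤ ((Qz z).card : ℝ) / 4 := by
        by_contra hcon
        push Not at hcon
        exact hDb (by rw [hbadd, mem_filter, ← hD]; exact ⟨ht, hcon⟩)
      have hDup : |(D : ℝ)| ≤ G2 * N ^ d := by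
        have h6 := hup t ht
        have h7 : (s t : ℝ) ^ 2 * |(discr (K t) : ℝ)| = 4 * |(D : ℝ)| := by
          have h6 : ((4 * D : ℤ) : ℝ) = (((s t : ℤ) ^ 2 * discr (K t) : ℤ) : ℝ) := by rw [hrel]
          have h7 := congrArg abs h6
          push_cast at h7
          rw [abs_mul, abs_mul, abs_of_pos (by norm_num : (0 : ℝ) < 4),
            abs_of_nonneg (by positivity : (0 : ℝ) ≤ (s t : ℝ) ^ 2)] at h7
          exact h7.symm
        have := abs_nonneg (D : ℝ)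
        linarith
      have hlogD : 8 * Real.log |(D : ℝ)| ≤ (Qz z).card := by
        have h1 : Real.log |(D : ℝ)| ≤ Real.log G2 + d * Real.log N := by
          have h2 : Real.log G2 + d * Real.log N = Real.log (G2 * N ^ d) := by
            rw [Real.log_mul hG20.ne' (by positivity), Real.log_pow]
          rw [h2]
          apply Real.log_le_log
          · rw [abs_pos]; exact_mod_cast hDne
          · exact hDup
        rw [← hN0d]
        linarith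
      have hmr := many_res hDne (Qz z) (fun p hp => (mem_Qz hp).1) hgood hlogD
      obtain ⟨P, hP⟩ : ∃ P : Finset ℕ, P = (Qz z).filter (fun p => jacobiSym D p = 1) := ⟨_, rfl⟩
      rw [← hP, ← hN0d] at hmr
      have hPQ : P ⊆ Qz z := by rw [hP]; exact filter_subset _ _
      have hPcard : N0 / 16 ≤ (P.card : ℝ) := by
        refine le_trans ?_ hmr
        linarith
      have h6 := (hC0 l hl (K t) (hS t ht).2.1 z P (by
        intro p hp
        rw [hP, mem_filter] at hp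
        obtain ⟨hpQ, hjs⟩ := hp
        obtain ⟨hpp, hpz2, hpz⟩ := mem_Qz hpQ
        have hp2 : p ≠ 2 := by
          rintro rfl
          push_cast at hpz2
          linarith
        obtain ⟨hqr, hpD⟩ := qr_disc hpp hp2 hrel hjs
        exact ⟨hpp, hpz, hpD, hqr⟩)).2
      rw [hTe] at h6
      have hEmono : (EC l Z (discr (K t)) P : ℝ) ≤ EC l Z (discr (K t)) (Qz z) := by
        exact_mod_cast EC_mono hPQ
      have h7 : T t * (P.card : ℝ) ^ 2 ≤ (B / s t) * (2 * P.card + 4 * (EC l Z (discr (K t)) (Qz z) : ℝ)) := by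
        refine h6.trans ?_
        rw [← hZ]
        apply mul_le_mul (hDB t ht) (by linarith) (by positivity) (by positivity)
      have h8 := good_bound r hr (hT0 t) (by positivity : 0 ≤ B / s t) hN0p hPcard
        (by positivity : (0 : ℝ) ≤ EC l Z (discr (K t)) (Qz z)) (by
          rw [hN0d]
          exact_mod_cast (EC_le (l := l) (Z := Z) (D := discr (K t)) (P := Qz z))) h7
      refine h8.trans ?_
      have h9 : (1024 * (B / s t)) ^ r = (1024 * B) ^ r / (s t : ℝ) ^ r := by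
        rw [← div_pow]; congr 1; ring
      rw [h9, hW]
      have h10 : (s t : ℝ) ≤ (s t : ℝ) ^ r := le_self_pow₀ (hsr t ht) (by omega)
      have h11 : (1 : ℝ) ≤ (s t : ℝ) ^ r := one_le_pow₀ (hsr t ht)
      calc (1024 * B) ^ r / (s t : ℝ) ^ r * 2 ^ (r - 1) * ((1 / N0) ^ r +
            (EC l Z (discr (K t)) (Qz z) : ℝ) / N0 ^ 2)
          = (1024 * B) ^ r * 2 ^ (r - 1) * ((1 / N0) ^ r / (s t : ℝ) ^ r +
            (EC l Z (discr (K t)) (Qz z) : ℝ) / (s t : ℝ) ^ r / N0 ^ 2) := by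
            field_simp
        _ ≤ (1024 * B) ^ r * 2 ^ (r - 1) * ((1 / N0) ^ r / 1 +
            (EC l Z (discr (K t)) (Qz z) : ℝ) / s t / N0 ^ 2) := by gcongr
        _ = _ := by rw [div_one]
  -- the three sums
  have hs1 : (S.card : ℝ) * (1 / N0) ^ r ≤ F * (S.card / y ^ r) := by
    have h1 : (1 / N0) ^ r ≤ F / y ^ r := by
      have h2 : 1 / N0 ≤ y ^ (-(1 - ε1)) := by
        rw [Real.rpow_neg hy0.le, inv_eq_one_div]
        exact one_div_le_one_div_of_le (Real.rpow_pos_of_pos hy0 _) hz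
      have h3 : (y ^ (-(1 - ε1))) ^ r * y ^ r ≤ F := by
        rw [← mul_pow]
        have h4 : y ^ (-(1 - ε1)) * y = y ^ ε1 := by
          rw [show y ^ (-(1 - ε1)) * y = y ^ (-(1 - ε1)) * y ^ (1 : ℝ) by rw [Real.rpow_one],
            ← Real.rpow_add hy0]
          congr 1; ring
        rw [h4, ← Real.rpow_natCast, ← Real.rpow_mul hy0.le]
        calc y ^ (ε1 * (r : ℝ)) ≤ N ^ (ε1 * (r : ℝ)) := Real.rpow_le_rpow hy0.le hyN (by positivity)
          _ ≤ F := by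
              rw [hF]
              apply Real.rpow_le_rpow_of_exponent_le hN
              nlinarith
      rw [le_div_iff₀ (by positivity)]
      refine le_trans ?_ h3
      gcongr
    calc (S.card : ℝ) * (1 / N0) ^ r ≤ S.card * (F / y ^ r) := by gcongr
      _ = _ := by ring
  have hs2 : ∑ t ∈ S, (EC l Z (discr (K t)) (Qz z) : ℝ) / s t / N0 ^ 2 ≤
      2 * C3 * G2 * (F * (Y * (y ^ l / Q) * Real.sqrt N)) := by
    obtain ⟨Y', hY'⟩ : ∃ Y' : ℕ, Y' = min ⌊2 * Y⌋₊ ⌊Real.sqrt (G2 * N ^ d)⌋₊ := ⟨_, rfl⟩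
    have hGN1 : 1 ≤ G2 * N ^ d := one_le_mul_of_one_le_of_one_le hG21 hNd1
    have hsGN1 : 1 ≤ Real.sqrt (G2 * N ^ d) := by rw [Real.one_le_sqrt]; exact hGN1
    have hsGN : Real.sqrt (G2 * N ^ d) ≤ G2 * N ^ d := by
      rw [Real.sqrt_le_left (by positivity)]
      exact le_self_pow₀ hGN1 two_ne_zero
    have hY'1 : 1 ≤ Y' := by
      rw [hY']
      refine le_min ?_ ?_
      · apply Nat.le_floor
        push_cast
        linarith
      · apply Nat.le_floor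
        push_cast
        exact hsGN1
    have hY'2 : (Y' : ℝ) ≤ 2 * Y := by
      have h1 : (Y' : ℝ) ≤ (⌊2 * Y⌋₊ : ℝ) := by rw [hY']; exact_mod_cast min_le_left _ _
      exact h1.trans (Nat.floor_le (by positivity))
    have hY'3 : (Y' : ℝ) ≤ G2 * N ^ d := by
      have h1 : (Y' : ℝ) ≤ (⌊Real.sqrt (G2 * N ^ d)⌋₊ : ℝ) := by rw [hY']; exact_mod_cast min_le_right _ _
      exact (h1.trans (Nat.floor_le (Real.sqrt_nonneg _))).trans hsGN
    have h1 := hC3 N hNN1 z Y' hz1 hY'1 S (fun t => discr (K t)) s (by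
      intro t ht
      obtain ⟨⟨h1, h2⟩, -, h3, h4, h5⟩ := hS t ht
      refine ⟨h1, h2, h3, ?_, h5⟩
      rw [hY']
      refine le_min (Nat.le_floor h4) (Nat.le_floor ?_)
      apply Real.le_sqrt_of_sq_le
      have h6 := hup t ht
      have h7 : (1 : ℝ) ≤ |(discr (K t) : ℝ)| := by
        exact_mod_cast Int.one_le_abs (NumberField.discr_ne_zero (K t))
      have h8 : 0 ≤ (s t : ℝ) ^ 2 := by positivity
      nlinarith)
    rw [← hZ, ← hN0d, ← hQ] at h1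
    have h2 : (N * z * Y') ^ ε2 ≤ G2 * F := by
      have h3 : N * z * Y' ≤ G2 * N ^ (2 + d) := by
        calc N * z * Y' ≤ N * N * (G2 * N ^ d) := by
              have : (z : ℝ) ≤ N := hzy.trans hyN
              gcongr
          _ = _ := by ring
      calc (N * z * Y') ^ ε2 ≤ (G2 * N ^ (2 + d)) ^ ε2 := Real.rpow_le_rpow (by positivity) h3 hε20.le
        _ = G2 ^ ε2 * (N ^ (2 + d)) ^ ε2 := Real.mul_rpow hG20.le (by positivity)
        _ ≤ G2 ^ (1 : ℝ) * (N ^ (2 + d)) ^ ε2 := by gcongr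
        _ = _ := by
            rw [Real.rpow_one, ← Real.rpow_natCast N, ← Real.rpow_mul hN0.le, hF, ← hε2d]
            push_cast
            rfl
    rw [← Finset.sum_div, div_le_iff₀ (by positivity)]
    refine h1.trans ?_
    have hzl : (z : ℝ) ^ l ≤ y ^ l := pow_le_pow_left₀ (Nat.cast_nonneg z) hzy l
    calc N0 ^ 2 * (C3 * (N * z * Y') ^ ε2 * Y' * ((z : ℝ) ^ l / Q) * Real.sqrt N)
        ≤ N0 ^ 2 * (C3 * (G2 * F) * (2 * Y) * (y ^ l / Q) * Real.sqrt N) := by gcongr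
      _ = _ := by ring
  have hs3 : (bad.card : ℝ) ≤ 4 * C4 * (F * (N / y ^ m + y ^ (2 * m))) := by
    have hG'0 : 0 ≤ y ^ (-((1 - ε1) * m)) := by positivity
    have h1 := bad_window hG'0 hC40.le hN _ hbad S
      (fun t ht => ⟨(hS t ht).1.1, by have := (hS t ht).1.2; linarith⟩)
    rw [← hbadd] at h1
    refine h1.trans ?_
    have h2 : y ^ (-((1 - ε1) * m)) ≤ F / y ^ m := by
      rw [le_div_iff₀ (by positivity), ← Real.rpow_natCast y m, ← Real.rpow_add hy0]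
      have e : -((1 - ε1) * m) + m = ε1 * m := by ring
      rw [e]
      calc y ^ (ε1 * (m : ℝ)) ≤ N ^ (ε1 * (m : ℝ)) := Real.rpow_le_rpow hy0.le hyN (by positivity)
        _ ≤ F := by
            rw [hF]
            apply Real.rpow_le_rpow_of_exponent_le hN
            nlinarith
    have h3 : y ^ (2 * m) ≤ F * y ^ (2 * m) := le_mul_of_one_le_left (by positivity) hF1
    calc 2 * (C4 * (2 * N * y ^ (-((1 - ε1) * m)) + y ^ (2 * m)))
        ≤ 2 * (C4 * (2 * N * (F / y ^ m) + F * y ^ (2 * m))) := by gcongr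
      _ = 4 * C4 * (F * (N / y ^ m)) + 2 * C4 * (F * y ^ (2 * m)) := by ring
      _ ≤ 4 * C4 * (F * (N / y ^ m)) + 4 * C4 * (F * y ^ (2 * m)) := by
          have : 0 ≤ C4 * (F * y ^ (2 * m)) := by positivity
          linarith
      _ = _ := by ring
  have hfin : ∑ t ∈ S, T t ^ r ≤ W * ((1 + 2 * C3 * G2 + 4 * C4) * F *
      (S.card / y ^ r + Y * (y ^ l / Q) * Real.sqrt N + N / y ^ m + y ^ (2 * m))) := by
    calc ∑ t ∈ S, T t ^ r ≤ ∑ t ∈ S, W * ((1 / N0) ^ r +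
          (EC l Z (discr (K t)) (Qz z) : ℝ) / s t / N0 ^ 2 +
          if t ∈ bad then 1 else 0) := Finset.sum_le_sum hpt
      _ = W * ((S.card : ℝ) * (1 / N0) ^ r +
          ∑ t ∈ S, (EC l Z (discr (K t)) (Qz z) : ℝ) / s t / N0 ^ 2 + bad.card) := by
          rw [← Finset.mul_sum, Finset.sum_add_distrib, Finset.sum_add_distrib, sum_const,
            nsmul_eq_mul]
          congr 2
          rw [← Finset.sum_filter, sum_const, nsmul_eq_mul, mul_one]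
          congr 2
          ext t
          rw [mem_filter, hbadd, mem_filter]
          tauto
      _ ≤ W * (F * (S.card / y ^ r) + 2 * (C3 * G2) * (F * (Y * (y ^ l / Q) * Real.sqrt N)) +
            4 * C4 * (F * (N / y ^ m + y ^ (2 * m)))) := by
          have e : 2 * C3 * G2 = 2 * (C3 * G2) := by ring
          rw [e] at hs2
          gcongr
      _ ≤ W * ((1 + 2 * (C3 * G2) + 4 * C4) * F *
          (S.card / y ^ r + Y * (y ^ l / Q) * Real.sqrt N + N / y ^ m + y ^ (2 * m))) :=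
          mul_le_mul_of_nonneg_left (three (by positivity) hC40.le (by linarith) (by positivity)
            (by positivity) (by positivity) (by positivity)) hW0.le
      _ = _ := by ring
  have hWle : W ≤ (1024 * Bd) ^ r * 2 ^ (r - 1) * (Q ^ r * F) := by
    have h1 : (1024 * B) ^ r = 1024 ^ r * B ^ r := mul_pow _ _ _
    rw [hW, h1]
    calc 1024 ^ r * B ^ r * 2 ^ (r - 1) ≤ 1024 ^ r * (Bd ^ r * Q ^ r * F) * 2 ^ (r - 1) := by gcongr
      _ = _ := by rw [mul_pow]; ring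
  refine hfin.trans ?_
  have hF0 : 0 < F := by linarith
  have hK0 : 0 ≤ 1 + 2 * C3 * G2 + 4 * C4 := by positivity
  calc W * ((1 + 2 * C3 * G2 + 4 * C4) * F *
        (S.card / y ^ r + Y * (y ^ l / Q) * Real.sqrt N + N / y ^ m + y ^ (2 * m)))
      ≤ ((1024 * Bd) ^ r * 2 ^ (r - 1) * (Q ^ r * F)) * ((1 + 2 * C3 * G2 + 4 * C4) * F *
        (S.card / y ^ r + Y * (y ^ l / Q) * Real.sqrt N + N / y ^ m + y ^ (2 * m))) := by
        gcongr
    _ = Cbig * F ^ 2 * Q ^ r *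
        (S.card / y ^ r + Y * (y ^ l / Q) * Real.sqrt N + N / y ^ m + y ^ (2 * m)) := by
        rw [hCbig]; ring
    _ ≤ (Cbig + Csm) * N ^ ε * Q ^ r *
        (S.card / y ^ r + Y * (y ^ l / Q) * Real.sqrt N + N / y ^ m + y ^ (2 * m)) := by
        have h5 : Cbig ≤ Cbig + Csm := by linarith
        gcongr

end Pool.Agent.J6H11.PF
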