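import Mathlib
import Pool.Agent.Y159.QS.Quad

set_option autoImplicit false

/-! The discriminant of the field generated by a square root of an integer. -/

namespace Pool.Agent.J6H11.PF

open NumberField

variable {K : Type} [Field K] [NumberField K]

theorem trace_norm (hK : Module.finrank ℚ K = 2) {F : ℚ} (hF : ¬ IsSquare F) {α : K}
    (hα : α ^ 2 = algebraMap ℚ K F) : Algebra.trace ℚ K α = 0 ∧ Algebra.norm ℚ α = -F := by
  have hli : LinearIndependent ℚ ![(1 : K), α] := by
    rw [LinearIndependent.pair_iff]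
    intro a b h
    by_cases hb : b = 0
    · subst hb
      rw [zero_smul, add_zero, smul_eq_zero] at h
      exact ⟨h.resolve_right one_ne_zero, rfl⟩
    · exfalso
      apply hF
      refine ⟨-(a / b), ?_⟩
      have h1 : α = algebraMap ℚ K (-(a / b)) := by
        rw [Algebra.smul_def, Algebra.smul_def, mul_one] at h
        have hb' : algebraMap ℚ K b ≠ 0 := by
          rw [Ne, FaithfulSMul.algebraMap_eq_zero_iff]; exact hb
        rw [map_neg, map_div₀, ← neg_div, eq_div_iff hb']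
        linear_combination h
      apply FaithfulSMul.algebraMap_injective ℚ K
      rw [← hα, map_mul, ← h1]; ring
  obtain ⟨b, hb⟩ : ∃ b : Module.Basis (Fin 2) ℚ K, ⇑b = ![(1 : K), α] :=
    ⟨basisOfLinearIndependentOfCardEqFinrank hli (by rw [Fintype.card_fin, hK]),
      coe_basisOfLinearIndependentOfCardEqFinrank _ _⟩
  have hb0 : b 0 = 1 := by rw [hb]; rfl
  have hb1 : b 1 = α := by rw [hb]; rfl
  have e0 : b.repr (α * b 0) = b.repr (b 1) := by rw [hb0, hb1, mul_one]
  have e1 : b.repr (α * b 1) = F • b.repr (b 0) := by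
    rw [hb0, hb1, ← sq, hα, ← map_smul, Algebra.smul_def, mul_one]
  have m00 : Algebra.leftMulMatrix b α 0 0 = 0 := by
    rw [Algebra.leftMulMatrix_eq_repr_mul, e0, b.repr_self]; simp
  have m10 : Algebra.leftMulMatrix b α 1 0 = 1 := by
    rw [Algebra.leftMulMatrix_eq_repr_mul, e0, b.repr_self]; simp
  have m01 : Algebra.leftMulMatrix b α 0 1 = F := by
    rw [Algebra.leftMulMatrix_eq_repr_mul, e1, b.repr_self]; simp
  have m11 : Algebra.leftMulMatrix b α 1 1 = 0 := by
    rw [Algebra.leftMulMatrix_eq_repr_mul, e1, b.repr_self]; simp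
  constructor
  · rw [Algebra.trace_eq_matrix_trace b, Matrix.trace_fin_two, m00, m11, add_zero]
  · rw [Algebra.norm_eq_matrix_det b, Matrix.det_fin_two, m00, m11, m01, m10]
    ring

/-- `4 F = s ^ 2 D` for the discriminant `D` of `ℚ(√F)` -/
theorem exists_s (hK : Module.finrank ℚ K = 2) {F : ℤ} (hF : ¬ IsSquare (F : ℚ))
    (hα : IsSquare ((F : ℤ) : K)) : ∃ s : ℕ, 1 ≤ s ∧ 4 * F = (s : ℤ) ^ 2 * discr K := by
  obtain ⟨α, hα⟩ := hα
  have hα2 : α ^ 2 = algebraMap ℚ K (F : ℚ) := by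
    rw [sq, ← hα]
    simp
  obtain ⟨h1, h2⟩ := trace_norm hK hF hα2
  have hint : IsIntegral ℤ α := by
    refine ⟨Polynomial.X ^ 2 - Polynomial.C F, Polynomial.monic_X_pow_sub_C F two_ne_zero, ?_⟩
    rw [Polynomial.eval₂_sub, Polynomial.eval₂_X_pow, Polynomial.eval₂_C, sq, ← hα]
    simp
  obtain ⟨x, hx⟩ : ∃ x : 𝓞 K, (x : K) = α := ⟨⟨α, hint⟩, rfl⟩
  obtain ⟨k, hk⟩ := Pool.Agent.Y159.QS.disc_rel hK x
  have ht : Algebra.trace ℤ (𝓞 K) x = 0 := by
    have h3 := Algebra.coe_trace_int (K := K) x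
    rw [hx, h1] at h3
    exact_mod_cast h3
  have hn : Algebra.norm ℤ x = -F := by
    have h3 := Algebra.coe_norm_int (K := K) x
    rw [hx, h2] at h3
    exact_mod_cast h3
  rw [ht, hn] at hk
  have hF0 : F ≠ 0 := by
    rintro rfl
    apply hF
    exact ⟨0, by simp⟩
  have hk0 : k ≠ 0 := by
    rintro rfl
    apply hF0
    linarith
  refine ⟨k.natAbs, Int.natAbs_pos.2 hk0, ?_⟩
  rw [Int.natCast_natAbs, sq_abs, ← hk]
  ring

end Pool.Agent.J6H11.PF
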