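import Mathlib
import Pool.Agent.J6H11.PF.Main
import Pool.Agent.J6H11.PF.Root

set_option autoImplicit false

/-! Moments of the torsion of class groups of quadratic fields in polynomial families. -/

namespace Pool.Agent.J6H11.PF

open NumberField Finset Pool.Agent.TH869.EVF Pool.Agent.Y159.QS Pool.Agent.Y159.TQ
open scoped Classical

/-- `K = ℚ(√n)` is a quadratic field -/
def SqF (n : ℤ) (K : Type) [Field K] [NumberField K] : Prop :=
  Module.finrank ℚ K = 2 ∧ ¬ IsSquare (n : ℚ) ∧ IsSquare ((n : ℤ) : K)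

/-- the bound by the class number -/
theorem triv (f : Polynomial ℤ) (l r : ℕ) (hl : 1 ≤ l)
    (ε : ℝ) (hε : 0 < ε) : ∃ C : ℝ, 0 < C ∧ (∀ (K : Type) [Field K] [NumberField K] (t : ℤ) (N w : ℝ),
      1 ≤ N → 1 ≤ w → N ≤ |(t : ℝ)| → |(t : ℝ)| ≤ 2 * N → SqF (f.eval t) K →
      w ^ 2 * |(discr K : ℝ)| ≤ |((f.eval t : ℤ) : ℝ)| →
      (Nat.card {x : ClassGroup (𝓞 K) // x ^ l = 1} : ℝ) ^ r ≤
        C * N ^ ε * (Real.sqrt (N ^ f.natDegree) / w) ^ r) ∧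
    (∀ (K : Type) [Field K] [NumberField K], SqF (f.eval 0) K →
      (Nat.card {x : ClassGroup (𝓞 K) // x ^ l = 1} : ℝ) ^ r ≤ C) := by
  obtain ⟨d, hd⟩ : ∃ d, d = f.natDegree := ⟨_, rfl⟩
  obtain ⟨ε1, hε1⟩ : ∃ ε1 : ℝ, ε1 = min (ε / (d * r + 1)) (1 / 2) := ⟨_, rfl⟩
  have hε10 : 0 < ε1 := by rw [hε1]; exact lt_min (by positivity) (by norm_num)
  have hε1h : ε1 ≤ 1 / 2 := by rw [hε1]; exact min_le_right _ _
  have hε1s : d * ε1 * r ≤ ε := by
    have h1 : ε1 ≤ ε / (d * r + 1) := by rw [hε1]; exact min_le_left _ _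
    rw [le_div_iff₀ (by positivity)] at h1
    nlinarith
  obtain ⟨C0, hC00, hC0⟩ := single ε1 hε10
  obtain ⟨G, hG1, hG⟩ := size_up f
  rw [← hd] at hG ⊢
  obtain ⟨G2, hG2⟩ : ∃ G2 : ℝ, G2 = 4 * G * 2 ^ d := ⟨_, rfl⟩
  have hG21 : 1 ≤ G2 := by
    rw [hG2]
    have : (1 : ℝ) ≤ 2 ^ d := one_le_pow₀ (by norm_num)
    nlinarith
  have hG20 : 0 < G2 := by linarith
  obtain ⟨A0, hA0⟩ : ∃ A0 : ℝ, A0 = 4 * |((f.eval 0 : ℤ) : ℝ)| + 1 := ⟨_, rfl⟩
  have hA01 : 1 ≤ A0 := by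
    rw [hA0]
    have := abs_nonneg ((f.eval 0 : ℤ) : ℝ)
    linarith
  refine ⟨(C0 * G2) ^ r + (C0 * A0) ^ r, by positivity, ?_, ?_⟩
  · intro K _ _ t N w hN hw ht1 ht2 hK hD
    have hN0 : 0 < N := by linarith
    have hw0 : 0 < w := by linarith
    have h1 := (hC0 l hl K hK.1 0 ∅ (by simp)).1
    have hDG : w ^ 2 * |(discr K : ℝ)| ≤ G2 * N ^ d := by
      refine hD.trans ?_
      calc |((f.eval t : ℤ) : ℝ)| ≤ G * |(t : ℝ)| ^ d := hG t (hN.trans ht1)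
        _ ≤ G * (2 * N) ^ d := by gcongr
        _ = G * 2 ^ d * N ^ d := by rw [mul_pow]; ring
        _ ≤ G2 * N ^ d := by
            rw [hG2]
            have : 0 ≤ G * 2 ^ d := by positivity
            gcongr
            linarith
    have h2 := disc_bd (abs_nonneg (discr K : ℝ)) hw hDG hε10.le
    have hNd : (N ^ d) ^ (1 / 2 + ε1) = Real.sqrt (N ^ d) * N ^ (d * ε1) := by
      rw [Real.rpow_add (by positivity), ← Real.sqrt_eq_rpow, ← Real.rpow_natCast N d,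
        ← Real.rpow_mul hN0.le]
    have h3 : (Nat.card {x : ClassGroup (𝓞 K) // x ^ l = 1} : ℝ) ≤
        C0 * G2 * (Real.sqrt (N ^ d) / w) * N ^ (d * ε1) := by
      refine h1.trans ?_
      have h4 : |(discr K : ℝ)| ^ (1 / 2 + ε1) ≤ G2 * (Real.sqrt (N ^ d) * N ^ (d * ε1)) / w := by
        rw [le_div_iff₀ hw0, mul_comm]
        refine h2.trans ?_
        rw [Real.mul_rpow hG20.le (by positivity), hNd]
        gcongr
        calc G2 ^ (1 / 2 + ε1) ≤ G2 ^ (1 : ℝ) := Real.rpow_le_rpow_of_exponent_le hG21 (by linarith)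
          _ = G2 := Real.rpow_one _
      calc C0 * |(discr K : ℝ)| ^ (1 / 2 + ε1) ≤ C0 * (G2 * (Real.sqrt (N ^ d) * N ^ (d * ε1)) / w) := by
            gcongr
        _ = _ := by ring
    calc (Nat.card {x : ClassGroup (𝓞 K) // x ^ l = 1} : ℝ) ^ r
        ≤ (C0 * G2 * (Real.sqrt (N ^ d) / w) * N ^ (d * ε1)) ^ r :=
          pow_le_pow_left₀ (Nat.cast_nonneg _) h3 r
      _ = (C0 * G2) ^ r * (N ^ (d * ε1)) ^ r * (Real.sqrt (N ^ d) / w) ^ r := by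
          rw [mul_pow, mul_pow]; ring
      _ ≤ ((C0 * G2) ^ r + (C0 * A0) ^ r) * N ^ ε * (Real.sqrt (N ^ d) / w) ^ r := by
          have h5 : (N ^ ((d : ℝ) * ε1)) ^ r ≤ N ^ ε := by
            rw [← Real.rpow_natCast, ← Real.rpow_mul hN0.le]
            exact Real.rpow_le_rpow_of_exponent_le hN hε1s
          have h6 : (C0 * G2) ^ r ≤ (C0 * G2) ^ r + (C0 * A0) ^ r := by
            have : 0 ≤ (C0 * A0) ^ r := by positivity
            linarith
          gcongr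
  · intro K _ _ hK
    have h1 := (hC0 l hl K hK.1 0 ∅ (by simp)).1
    obtain ⟨s, hs1, hs⟩ := exists_s hK.1 hK.2.1 hK.2.2
    have h2 : |(discr K : ℝ)| ≤ A0 := by
      have h3 : ((4 * f.eval 0 : ℤ) : ℝ) = (((s : ℤ) ^ 2 * discr K : ℤ) : ℝ) := by rw [hs]
      have h4 := congrArg abs h3
      push_cast at h4
      rw [abs_mul, abs_mul, abs_of_pos (by norm_num : (0 : ℝ) < 4),
        abs_of_nonneg (by positivity : (0 : ℝ) ≤ (s : ℝ) ^ 2)] at h4
      have h5 : (1 : ℝ) ≤ (s : ℝ) ^ 2 := one_le_pow₀ (by exact_mod_cast hs1)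
      have h6 := abs_nonneg (discr K : ℝ)
      rw [hA0]
      nlinarith
    have h3 : (Nat.card {x : ClassGroup (𝓞 K) // x ^ l = 1} : ℝ) ≤ C0 * A0 := by
      refine h1.trans ?_
      gcongr
      calc |(discr K : ℝ)| ^ (1 / 2 + ε1) ≤ A0 ^ (1 / 2 + ε1) :=
            Real.rpow_le_rpow (abs_nonneg _) h2 (by positivity)
        _ ≤ A0 ^ (1 : ℝ) := Real.rpow_le_rpow_of_exponent_le hA01 (by linarith)
        _ = A0 := Real.rpow_one _
    have h4 : (Nat.card {x : ClassGroup (𝓞 K) // x ^ l = 1} : ℝ) ^ r ≤ (C0 * A0) ^ r :=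
      pow_le_pow_left₀ (Nat.cast_nonneg _) h3 r
    have : 0 ≤ (C0 * G2) ^ r := by positivity
    linarith

/-- the general bound for one block -/
theorem part1 (f : Polynomial ℤ) (hf : 1 ≤ f.natDegree)
    (hns : ∀ (c : ℚ) (g : Polynomial ℚ), f.map (Int.castRingHom ℚ) ≠ Polynomial.C c * g ^ 2)
    (l r m : ℕ) (hl : 1 ≤ l) (hr : 1 ≤ r) (hm : 1 ≤ m) (ε : ℝ) (hε : 0 < ε) :
    ∃ Cc : ℝ, 0 < Cc ∧ ∀ N y Y : ℝ, 1 ≤ N → 1 ≤ y → y ≤ N → 1 ≤ Y →
    ∀ (S : Finset ℤ) (K : ℤ → Type) [∀ t, Field (K t)] [∀ t, NumberField (K t)],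
    (∀ t ∈ S, (N ≤ |(t : ℝ)| ∧ |(t : ℝ)| ≤ 2 * N) ∧ SqF (f.eval t) (K t) ∧
      |((f.eval t : ℤ) : ℝ)| ≤ Y ^ 2 * |(discr (K t) : ℝ)|) →
    ∑ t ∈ S, (Nat.card {x : ClassGroup (𝓞 (K t)) // x ^ l = 1} : ℝ) ^ r ≤
      Cc * N ^ ε * Real.sqrt (N ^ f.natDegree) ^ r *
        (S.card / y ^ r + Y * (y ^ l / Real.sqrt (N ^ f.natDegree)) * Real.sqrt N + N / y ^ m +
          y ^ (2 * m)) := by
  obtain ⟨C, hC0, hC⟩ := block f hf hns l r m hl hr hm (min ε 1) (lt_min hε one_pos) (min_le_right _ _)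
  refine ⟨C, hC0, ?_⟩
  intro N y Y hN hy hyN hY S K _ _ hS
  have hN0 : 0 < N := by linarith
  have hy0 : 0 < y := by linarith
  have hs : ∀ t, ∃ s : ℕ, t ∈ S → (1 ≤ s ∧ 4 * f.eval t = (s : ℤ) ^ 2 * discr (K t)) := by
    intro t
    by_cases ht : t ∈ S
    · have h1 := (hS t ht).2.1
      obtain ⟨s, hs1, hs⟩ := exists_s h1.1 h1.2.1 h1.2.2
      exact ⟨s, fun _ => ⟨hs1, hs⟩⟩
    · exact ⟨0, fun h => absurd h ht⟩
  choose s hs using hs
  have h1 := hC N y Y hN hy hyN hY S K s (by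
    intro t ht
    obtain ⟨h1, h2, h3⟩ := hS t ht
    obtain ⟨h4, h5⟩ := hs t ht
    refine ⟨h1, h2.1, h4, ?_, h5⟩
    have h6 : ((4 * f.eval t : ℤ) : ℝ) = (((s t : ℤ) ^ 2 * discr (K t) : ℤ) : ℝ) := by rw [h5]
    have h7 := congrArg abs h6
    push_cast at h7
    rw [abs_mul, abs_mul, abs_of_pos (by norm_num : (0 : ℝ) < 4),
      abs_of_nonneg (by positivity : (0 : ℝ) ≤ (s t : ℝ) ^ 2)] at h7
    have h8 : (0 : ℝ) < |(discr (K t) : ℝ)| := by
      rw [abs_pos]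
      exact_mod_cast NumberField.discr_ne_zero (K t)
    have h9 : (s t : ℝ) ^ 2 * |(discr (K t) : ℝ)| ≤ (2 * Y) ^ 2 * |(discr (K t) : ℝ)| := by
      rw [← h7]
      nlinarith
    have h10 := le_of_mul_le_mul_right h9 h8
    exact le_of_sq_le_sq h10 (by linarith))
  refine h1.trans ?_
  have h2 : N ^ (min ε 1) ≤ N ^ ε := Real.rpow_le_rpow_of_exponent_le hN (min_le_left _ _)
  gcongr

/-- dyadic summation -/
theorem dyadic (g : ℤ → ℝ) (hg : ∀ t, 0 ≤ g t) (A A0 E η T : ℝ) (hA : 0 ≤ A) (hE : 0 ≤ E) (hη : 0 < η)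
    (hT : 1 ≤ T) (S : Finset ℤ) (hS : ∀ t ∈ S, |(t : ℝ)| ≤ T) (h0 : 0 ∈ S → g 0 ≤ A0) (hA0 : 0 ≤ A0)
    (hN : ∀ N : ℝ, 1 ≤ N → ∀ S' ⊆ S, (∀ t ∈ S', N ≤ |(t : ℝ)| ∧ |(t : ℝ)| ≤ 2 * N) →
      ∑ t ∈ S', g t ≤ A * N ^ E) :
    ∑ t ∈ S, g t ≤ A0 + (1 + 2 / η) * A * T ^ (E + η) := by
  have hT0 : 0 < T := by linarith
  obtain ⟨J, hJ⟩ : ∃ J : ℕ, J = Nat.log 2 ⌊T⌋₊ := ⟨_, rfl⟩
  have hfl : 1 ≤ ⌊T⌋₊ := Nat.le_floor (by exact_mod_cast hT)
  have hsplit : ∑ t ∈ S, g t ≤ ∑ t ∈ S.filter (fun t => t = 0), g t +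
      ∑ j ∈ range (J + 1), ∑ t ∈ S.filter (fun t => t ≠ 0 ∧ Nat.log 2 t.natAbs = j), g t := by
    rw [← Finset.sum_filter_add_sum_filter_not S (fun t => t = 0)]
    gcongr
    have hmaps : ∀ t ∈ S.filter (fun t => ¬ t = 0), Nat.log 2 t.natAbs ∈ range (J + 1) := by
      intro t ht
      rw [mem_filter] at ht
      rw [mem_range, hJ]
      have h1 : t.natAbs ≤ ⌊T⌋₊ := by
        apply Nat.le_floor
        rw [Nat.cast_natAbs, Int.cast_abs]
        exact hS t ht.1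
      have := Nat.log_mono_right (b := 2) h1
      omega
    rw [← Finset.sum_fiberwise_of_maps_to hmaps]
    refine Finset.sum_le_sum fun j _ => le_of_eq ?_
    rw [Finset.filter_filter]
  have hz : ∑ t ∈ S.filter (fun t => t = 0), g t ≤ A0 := by
    by_cases h : (0 : ℤ) ∈ S
    · have e : S.filter (fun t => t = 0) = {0} := by
        ext t
        rw [mem_filter, mem_singleton]
        constructor
        · exact fun h => h.2
        · rintro rfl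
          exact ⟨h, rfl⟩
      rw [e, sum_singleton]
      exact h0 h
    · have e : S.filter (fun t => t = 0) = ∅ := by
        ext t
        rw [mem_filter]
        constructor
        · rintro ⟨h1, rfl⟩
          exact absurd h1 h
        · intro h1
          exact absurd h1 (notMem_empty t)
      rw [e, sum_empty]
      exact hA0
  have hj : ∀ j ∈ range (J + 1), ∑ t ∈ S.filter (fun t => t ≠ 0 ∧ Nat.log 2 t.natAbs = j), g t ≤
      A * T ^ E := by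
    intro j hj
    rw [mem_range] at hj
    have h1 : ((2 : ℝ) ^ j) ≤ T := by
      have h2 : 2 ^ J ≤ ⌊T⌋₊ := by rw [hJ]; exact Nat.pow_log_le_self 2 (by omega)
      have h3 : 2 ^ j ≤ 2 ^ J := Nat.pow_le_pow_right (by norm_num) (by omega)
      have h4 : ((2 ^ j : ℕ) : ℝ) ≤ (⌊T⌋₊ : ℝ) := by exact_mod_cast h3.trans h2
      push_cast at h4
      exact h4.trans (Nat.floor_le hT0.le)
    refine (hN (2 ^ j) (one_le_pow₀ (by norm_num)) _ (filter_subset _ _) ?_).trans ?_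
    · intro t ht
      rw [mem_filter] at ht
      obtain ⟨-, ht0, htj⟩ := ht
      have ht1 : t.natAbs ≠ 0 := Int.natAbs_ne_zero.2 ht0
      have h2 : (t.natAbs : ℝ) = |(t : ℝ)| := by rw [Nat.cast_natAbs, Int.cast_abs]
      constructor
      · have h3 : 2 ^ j ≤ t.natAbs := by rw [← htj]; exact Nat.pow_log_le_self 2 ht1
        rw [← h2]
        exact_mod_cast h3
      · have h3 : t.natAbs < 2 ^ (j + 1) := by
          rw [← htj]; exact Nat.lt_pow_succ_log_self (by norm_num) _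
        rw [← h2]
        have h4 : t.natAbs ≤ 2 * 2 ^ j := by rw [pow_succ] at h3; omega
        exact_mod_cast h4
    · gcongr
  have hcount : ((J + 1 : ℕ) : ℝ) ≤ (1 + 2 / η) * T ^ η := by
    have h1 : (J : ℝ) ≤ 2 * Real.log T := by
      have h2 : 2 ^ J ≤ ⌊T⌋₊ := by rw [hJ]; exact Nat.pow_log_le_self 2 (by omega)
      have h4 : ((2 ^ J : ℕ) : ℝ) ≤ (⌊T⌋₊ : ℝ) := by exact_mod_cast h2
      have h5 : (2 : ℝ) ^ J ≤ T := by
        push_cast at h4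
        exact h4.trans (Nat.floor_le hT0.le)
      have h6 := Real.log_le_log (by positivity) h5
      rw [Real.log_pow] at h6
      have h7 : (1 : ℝ) / 2 ≤ Real.log 2 := by
        have := Real.log_two_gt_d9
        linarith
      have h8 : (0 : ℝ) ≤ J := Nat.cast_nonneg _
      nlinarith
    have h2 : Real.log T ≤ T ^ η / η := Real.log_le_rpow_div hT0.le hη
    have h3 : 1 ≤ T ^ η := Real.one_le_rpow hT hη.le
    push_cast
    calc (J : ℝ) + 1 ≤ 2 * (T ^ η / η) + T ^ η := by linarith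
      _ = _ := by ring
  calc ∑ t ∈ S, g t ≤ A0 + ∑ j ∈ range (J + 1), A * T ^ E := hsplit.trans (add_le_add hz (Finset.sum_le_sum hj))
    _ = A0 + ((J + 1 : ℕ) : ℝ) * (A * T ^ E) := by rw [sum_const, nsmul_eq_mul, card_range]
    _ ≤ A0 + ((1 + 2 / η) * T ^ η) * (A * T ^ E) := by gcongr
    _ = _ := by rw [Real.rpow_add hT0]; ring

end Pool.Agent.J6H11.PF
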