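import Mathlib
import Pool.Agent.J6H11.PF.Fin

set_option autoImplicit false

/-! Moments of the torsion of class groups of quadratic fields in polynomial families: all values. -/

namespace Pool.Agent.J6H11.PF

open NumberField Finset Pool.Agent.TH869.EVF Pool.Agent.Y159.QS Pool.Agent.Y159.TQ
open scoped Classical

theorem sq_rp {N : ℝ} (hN : 0 < N) (d r : ℕ) :
    Real.sqrt (N ^ d) ^ r = N ^ ((r : ℝ) * ((d : ℝ) / 2)) := by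
  rw [Real.sqrt_eq_rpow, ← Real.rpow_natCast N d, ← Real.rpow_mul hN.le, ← Real.rpow_natCast _ r,
    ← Real.rpow_mul hN.le]
  congr 1
  ring

/-- exponents -/
theorem exps {N θ : ℝ} (d l r a : ℕ) (hN : 1 ≤ N) (hr : 1 ≤ r) (hθ0 : 0 < θ)
    (h1 : θ * (3 * r) ≤ 1) (h2 : θ * (2 * (l + r + a)) ≤ d + 1) :
    (1 ≤ N ^ θ ∧ N ^ θ ≤ N) ∧ N / (N ^ θ) ^ r = N ^ (1 - r * θ) ∧
      (N ^ θ) ^ (2 * r) ≤ N ^ (1 - r * θ) ∧
      (N ^ θ) ^ a * ((N ^ θ) ^ l / Real.sqrt (N ^ d)) * Real.sqrt N ≤ N ^ (1 - r * θ) := by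
  have hN0 : 0 < N := by linarith
  have hr' : (1 : ℝ) ≤ r := by exact_mod_cast hr
  refine ⟨⟨Real.one_le_rpow hN hθ0.le, ?_⟩, ?_, ?_, ?_⟩
  · calc N ^ θ ≤ N ^ (1 : ℝ) := Real.rpow_le_rpow_of_exponent_le hN (by nlinarith)
      _ = N := Real.rpow_one N
  · rw [← Real.rpow_natCast _ r, ← Real.rpow_mul hN0.le, Real.rpow_sub hN0, Real.rpow_one,
      mul_comm θ]
  · rw [← Real.rpow_natCast _ (2 * r), ← Real.rpow_mul hN0.le]
    apply Real.rpow_le_rpow_of_exponent_le hN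
    push_cast
    nlinarith
  · have e1 : (N ^ θ) ^ a = N ^ (θ * a) := by rw [← Real.rpow_natCast _ a, ← Real.rpow_mul hN0.le]
    have e2 : (N ^ θ) ^ l = N ^ (θ * l) := by rw [← Real.rpow_natCast _ l, ← Real.rpow_mul hN0.le]
    have e3 : Real.sqrt (N ^ d) = N ^ ((d : ℝ) / 2) := by
      rw [Real.sqrt_eq_rpow, ← Real.rpow_natCast N d, ← Real.rpow_mul hN0.le]
      congr 1
      ring
    have e4 : Real.sqrt N = N ^ ((1 : ℝ) / 2) := Real.sqrt_eq_rpow N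
    rw [e1, e2, e3, e4, ← Real.rpow_sub hN0, ← Real.rpow_add hN0, ← Real.rpow_add hN0]
    apply Real.rpow_le_rpow_of_exponent_le hN
    nlinarith

/-- one block, discriminants of bounded index -/
theorem blk3 (f : Polynomial ℤ) (hf : 1 ≤ f.natDegree)
    (hns : ∀ (c : ℚ) (g : Polynomial ℚ), f.map (Int.castRingHom ℚ) ≠ Polynomial.C c * g ^ 2)
    (l r : ℕ) (hl : 1 ≤ l) (hr : 1 ≤ r) (ε : ℝ) (hε : 0 < ε) (θ : ℝ) (hθ : 0 < θ)
    (h1 : θ * (3 * r) ≤ 1) (h2 : θ * (2 * (l + r)) ≤ f.natDegree + 1) :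
    ∃ C : ℝ, 0 < C ∧ ∀ N Y : ℝ, 1 ≤ N → 1 ≤ Y →
    ∀ (S : Finset ℤ) (K : ℤ → Type) [∀ t, Field (K t)] [∀ t, NumberField (K t)],
    (∀ t ∈ S, (N ≤ |(t : ℝ)| ∧ |(t : ℝ)| ≤ 2 * N) ∧ SqF (f.eval t) (K t) ∧
      |((f.eval t : ℤ) : ℝ)| ≤ Y ^ 2 * |(discr (K t) : ℝ)|) →
    ∑ t ∈ S, (Nat.card {x : ClassGroup (𝓞 (K t)) // x ^ l = 1} : ℝ) ^ r ≤
      C * Y * N ^ (1 + r * ((f.natDegree : ℝ) / 2 - θ) + ε) := by
  obtain ⟨C, hC0, hC⟩ := part1 f hf hns l r r hl hr hr ε hε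
  refine ⟨7 * C, by positivity, ?_⟩
  intro N Y hN hY S K _ _ hS
  have hN0 : 0 < N := by linarith
  obtain ⟨⟨e1, e2⟩, e3, e4, e5⟩ := exps f.natDegree l r 0 hN hr hθ h1 (by simpa using h2)
  have hcard : (S.card : ℝ) ≤ 4 * N :=
    card_window hN S (fun t ht => ⟨(hS t ht).1.1, by linarith [(hS t ht).1.2]⟩)
  refine (hC N (N ^ θ) Y hN e1 e2 hY S K hS).trans ?_
  have hy : 0 < (N ^ θ) ^ r := by positivity
  have e6 : S.card / (N ^ θ) ^ r ≤ 4 * N ^ (1 - r * θ) := by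
    rw [← e3, ← mul_div_assoc]
    gcongr
  have e7 : Y * ((N ^ θ) ^ l / Real.sqrt (N ^ f.natDegree)) * Real.sqrt N ≤ Y * N ^ (1 - r * θ) := by
    rw [pow_zero, one_mul] at e5
    rw [mul_assoc]
    gcongr
  have e8 : N ^ (1 - r * θ) ≤ Y * N ^ (1 - r * θ) := le_mul_of_one_le_left (by positivity) hY
  calc C * N ^ ε * Real.sqrt (N ^ f.natDegree) ^ r *
        (S.card / (N ^ θ) ^ r + Y * ((N ^ θ) ^ l / Real.sqrt (N ^ f.natDegree)) * Real.sqrt N +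
          N / (N ^ θ) ^ r + (N ^ θ) ^ (2 * r))
      ≤ C * N ^ ε * Real.sqrt (N ^ f.natDegree) ^ r * (7 * (Y * N ^ (1 - r * θ))) := by
        have e9 : S.card / (N ^ θ) ^ r + Y * ((N ^ θ) ^ l / Real.sqrt (N ^ f.natDegree)) * Real.sqrt N +
          N / (N ^ θ) ^ r + (N ^ θ) ^ (2 * r) ≤ 7 * (Y * N ^ (1 - r * θ)) := by
          rw [e3]
          linarith
        gcongr
    _ = _ := by
        have e10 : N ^ (1 + r * ((f.natDegree : ℝ) / 2 - θ) + ε) =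
            N ^ ε * N ^ ((r : ℝ) * ((f.natDegree : ℝ) / 2)) * N ^ (1 - r * θ) := by
          rw [← Real.rpow_add hN0, ← Real.rpow_add hN0]
          congr 1
          ring
        rw [sq_rp hN0, e10]
        ring

/-- one block, all fields -/
theorem blk2 (f : Polynomial ℤ) (hf : 1 ≤ f.natDegree)
    (hns : ∀ (c : ℚ) (g : Polynomial ℚ), f.map (Int.castRingHom ℚ) ≠ Polynomial.C c * g ^ 2)
    (l r : ℕ) (hl : 1 ≤ l) (hr : 1 ≤ r) (ε : ℝ) (hε : 0 < ε) (θ : ℝ) (hθ : 0 < θ)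
    (h1 : θ * (3 * r) ≤ 1) (h2 : θ * (2 * (l + r + 1)) ≤ f.natDegree + 1) :
    ∃ C : ℝ, 0 < C ∧ ∀ N : ℝ, 1 ≤ N →
    ∀ (S : Finset ℤ) (K : ℤ → Type) [∀ t, Field (K t)] [∀ t, NumberField (K t)],
    (∀ t ∈ S, (N ≤ |(t : ℝ)| ∧ |(t : ℝ)| ≤ 2 * N) ∧ SqF (f.eval t) (K t)) →
    ∑ t ∈ S, (Nat.card {x : ClassGroup (𝓞 (K t)) // x ^ l = 1} : ℝ) ^ r ≤
      C * N ^ (1 + r * ((f.natDegree : ℝ) / 2 - θ) + ε) := by
  obtain ⟨C, hC0, hC⟩ := part1 f hf hns l r r hl hr hr ε hε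
  obtain ⟨C', hC0', hC', -⟩ := triv f l r hl ε hε
  refine ⟨7 * C + 4 * C', by positivity, ?_⟩
  intro N hN S K _ _ hS
  have hN0 : 0 < N := by linarith
  obtain ⟨⟨e1, e2⟩, e3, e4, e5⟩ := exps f.natDegree l r 1 hN hr hθ h1 (by simpa using h2)
  have hcard : ∀ S' ⊆ S, (S'.card : ℝ) ≤ 4 * N := fun S' hS' =>
    card_window hN S' (fun t ht => ⟨(hS t (hS' ht)).1.1, by linarith [(hS t (hS' ht)).1.2]⟩)
  have hy : 0 < (N ^ θ) ^ r := by positivity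
  have e6 : ∀ S' ⊆ S, S'.card / (N ^ θ) ^ r ≤ 4 * N ^ (1 - r * θ) := by
    intro S' hS'
    rw [← e3, ← mul_div_assoc]
    have := hcard S' hS'
    gcongr
  have e10 : N ^ (1 + r * ((f.natDegree : ℝ) / 2 - θ) + ε) =
      N ^ ε * N ^ ((r : ℝ) * ((f.natDegree : ℝ) / 2)) * N ^ (1 - r * θ) := by
    rw [← Real.rpow_add hN0, ← Real.rpow_add hN0]
    congr 1
    ring
  rw [← Finset.sum_filter_add_sum_filter_not S
    (fun t => |((f.eval t : ℤ) : ℝ)| ≤ (N ^ θ) ^ 2 * |(discr (K t) : ℝ)|)]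
  obtain ⟨S1, hS1⟩ : ∃ S1, S1 = S.filter
    (fun t => |((f.eval t : ℤ) : ℝ)| ≤ (N ^ θ) ^ 2 * |(discr (K t) : ℝ)|) := ⟨_, rfl⟩
  obtain ⟨S2, hS2⟩ : ∃ S2, S2 = S.filter
    (fun t => ¬ |((f.eval t : ℤ) : ℝ)| ≤ (N ^ θ) ^ 2 * |(discr (K t) : ℝ)|) := ⟨_, rfl⟩
  rw [← hS1, ← hS2]
  have s1 : S1 ⊆ S := by rw [hS1]; exact filter_subset _ _
  have s2 : S2 ⊆ S := by rw [hS2]; exact filter_subset _ _
  have b1 : ∑ t ∈ S1, (Nat.card {x : ClassGroup (𝓞 (K t)) // x ^ l = 1} : ℝ) ^ r ≤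
      7 * C * N ^ (1 + r * ((f.natDegree : ℝ) / 2 - θ) + ε) := by
    refine (hC N (N ^ θ) (N ^ θ) hN e1 e2 e1 S1 K (fun t ht => ?_)).trans ?_
    · rw [hS1, mem_filter] at ht
      exact ⟨(hS t ht.1).1, (hS t ht.1).2, ht.2⟩
    · have e7 : (N ^ θ) * ((N ^ θ) ^ l / Real.sqrt (N ^ f.natDegree)) * Real.sqrt N ≤
          N ^ (1 - r * θ) := by
        rwa [pow_one] at e5
      have e8 := e6 S1 s1
      calc C * N ^ ε * Real.sqrt (N ^ f.natDegree) ^ r *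
            (S1.card / (N ^ θ) ^ r + (N ^ θ) * ((N ^ θ) ^ l / Real.sqrt (N ^ f.natDegree)) *
              Real.sqrt N + N / (N ^ θ) ^ r + (N ^ θ) ^ (2 * r))
          ≤ C * N ^ ε * Real.sqrt (N ^ f.natDegree) ^ r * (7 * N ^ (1 - r * θ)) := by
            have e9 : S1.card / (N ^ θ) ^ r + (N ^ θ) * ((N ^ θ) ^ l /
                Real.sqrt (N ^ f.natDegree)) * Real.sqrt N + N / (N ^ θ) ^ r +
                (N ^ θ) ^ (2 * r) ≤ 7 * N ^ (1 - r * θ) := by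
              rw [e3]
              linarith
            gcongr
        _ = _ := by
            rw [sq_rp hN0, e10]
            ring
  have b2 : ∑ t ∈ S2, (Nat.card {x : ClassGroup (𝓞 (K t)) // x ^ l = 1} : ℝ) ^ r ≤
      4 * C' * N ^ (1 + r * ((f.natDegree : ℝ) / 2 - θ) + ε) := by
    have c1 : ∀ t ∈ S2, (Nat.card {x : ClassGroup (𝓞 (K t)) // x ^ l = 1} : ℝ) ^ r ≤
        C' * N ^ ε * (Real.sqrt (N ^ f.natDegree) / (N ^ θ)) ^ r := by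
      intro t ht
      rw [hS2, mem_filter] at ht
      have h3 := hS t ht.1
      exact hC' (K t) t N (N ^ θ) hN e1 h3.1.1 h3.1.2 h3.2 (not_le.1 ht.2).le
    refine (Finset.sum_le_sum c1).trans ?_
    rw [sum_const, nsmul_eq_mul]
    have c2 := e6 S2 s2
    calc (S2.card : ℝ) * (C' * N ^ ε * (Real.sqrt (N ^ f.natDegree) / (N ^ θ)) ^ r)
        = (S2.card / (N ^ θ) ^ r) * (C' * N ^ ε * Real.sqrt (N ^ f.natDegree) ^ r) := by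
          rw [div_pow]; ring
      _ ≤ (4 * N ^ (1 - r * θ)) * (C' * N ^ ε * Real.sqrt (N ^ f.natDegree) ^ r) := by gcongr
      _ = _ := by
          rw [sq_rp hN0, e10]
          ring
  calc _ ≤ 7 * C * N ^ (1 + r * ((f.natDegree : ℝ) / 2 - θ) + ε) +
        4 * C' * N ^ (1 + r * ((f.natDegree : ℝ) / 2 - θ) + ε) := add_le_add b1 b2
    _ = _ := by ring

theorem expE {θ : ℝ} (d r : ℕ) (h1 : θ * (3 * r) ≤ 1) : 0 ≤ 1 + r * ((d : ℝ) / 2 - θ) := by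
  have : (0 : ℝ) ≤ r * ((d : ℝ) / 2) := by positivity
  nlinarith

theorem dy_end {A A0 η T E : ℝ} (hA0 : 0 ≤ A0) (hA : 0 ≤ A) (hη : 0 < η) (hT : 1 ≤ T)
    (hE : 0 ≤ E) {Y : ℝ} (hY : 1 ≤ Y) :
    A0 + (1 + 2 / η) * (A * Y) * T ^ (E + η) ≤ (A0 + (1 + 2 / η) * A) * Y * T ^ (E + η) := by
  have h1 : 1 ≤ T ^ (E + η) := Real.one_le_rpow hT (by linarith)
  have h2 : 1 ≤ Y * T ^ (E + η) := one_le_mul_of_one_le_of_one_le hY h1
  nlinarith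

/-- all fields of bounded index -/
theorem mom3 (f : Polynomial ℤ) (hf : 1 ≤ f.natDegree)
    (hns : ∀ (c : ℚ) (g : Polynomial ℚ), f.map (Int.castRingHom ℚ) ≠ Polynomial.C c * g ^ 2)
    (l r : ℕ) (hl : 1 ≤ l) (hr : 1 ≤ r) (ε : ℝ) (hε : 0 < ε) (θ : ℝ) (hθ : 0 < θ)
    (h1 : θ * (3 * r) ≤ 1) (h2 : θ * (2 * (l + r)) ≤ f.natDegree + 1) :
    ∃ C : ℝ, 0 < C ∧ ∀ T Y : ℝ, 1 ≤ T → 1 ≤ Y →
    ∀ (S : Finset ℤ) (K : ℤ → Type) [∀ t, Field (K t)] [∀ t, NumberField (K t)],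
    (∀ t ∈ S, |(t : ℝ)| ≤ T ∧ SqF (f.eval t) (K t) ∧
      |((f.eval t : ℤ) : ℝ)| ≤ Y ^ 2 * |(discr (K t) : ℝ)|) →
    ∑ t ∈ S, (Nat.card {x : ClassGroup (𝓞 (K t)) // x ^ l = 1} : ℝ) ^ r ≤
      C * Y * T ^ (1 + r * ((f.natDegree : ℝ) / 2 - θ) + ε) := by
  obtain ⟨C, hC0, hC⟩ := blk3 f hf hns l r hl hr (ε / 2) (by positivity) θ hθ h1 h2
  obtain ⟨C', hC0', -, hC'⟩ := triv f l r hl ε hε
  have hE := expE f.natDegree r h1
  refine ⟨C' + (1 + 2 / (ε / 2)) * C, by positivity, ?_⟩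
  intro T Y hT hY S K _ _ hS
  have h3 := dyadic (fun t => (Nat.card {x : ClassGroup (𝓞 (K t)) // x ^ l = 1} : ℝ) ^ r)
    (fun t => by positivity) (C * Y) C' (1 + r * ((f.natDegree : ℝ) / 2 - θ) + ε / 2) (ε / 2) T
    (by positivity) (by positivity) (by positivity) hT S (fun t ht => (hS t ht).1)
    (fun h => hC' (K 0) (hS 0 h).2.1) hC0'.le
    (fun N hN S' hS' h => hC N Y hN hY S' K
      (fun t ht => ⟨h t ht, (hS t (hS' ht)).2.1, (hS t (hS' ht)).2.2⟩))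
  refine h3.trans ?_
  have h4 := dy_end (E := 1 + r * ((f.natDegree : ℝ) / 2 - θ) + ε / 2) hC0'.le hC0.le
    (by positivity : 0 < ε / 2) hT (by positivity) hY
  have h5 : (1 + r * ((f.natDegree : ℝ) / 2 - θ) + ε / 2) + ε / 2 =
      1 + r * ((f.natDegree : ℝ) / 2 - θ) + ε := by ring
  rw [h5] at h4 ⊢
  exact h4

/-- all fields -/
theorem mom2 (f : Polynomial ℤ) (hf : 1 ≤ f.natDegree)
    (hns : ∀ (c : ℚ) (g : Polynomial ℚ), f.map (Int.castRingHom ℚ) ≠ Polynomial.C c * g ^ 2)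
    (l r : ℕ) (hl : 1 ≤ l) (hr : 1 ≤ r) (ε : ℝ) (hε : 0 < ε) (θ : ℝ) (hθ : 0 < θ)
    (h1 : θ * (3 * r) ≤ 1) (h2 : θ * (2 * (l + r + 1)) ≤ f.natDegree + 1) :
    ∃ C : ℝ, 0 < C ∧ ∀ T : ℝ, 1 ≤ T →
    ∀ (S : Finset ℤ) (K : ℤ → Type) [∀ t, Field (K t)] [∀ t, NumberField (K t)],
    (∀ t ∈ S, |(t : ℝ)| ≤ T ∧ SqF (f.eval t) (K t)) →
    ∑ t ∈ S, (Nat.card {x : ClassGroup (𝓞 (K t)) // x ^ l = 1} : ℝ) ^ r ≤
      C * T ^ (1 + r * ((f.natDegree : ℝ) / 2 - θ) + ε) := by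
  obtain ⟨C, hC0, hC⟩ := blk2 f hf hns l r hl hr (ε / 2) (by positivity) θ hθ h1 h2
  obtain ⟨C', hC0', -, hC'⟩ := triv f l r hl ε hε
  have hE := expE f.natDegree r h1
  refine ⟨C' + (1 + 2 / (ε / 2)) * C, by positivity, ?_⟩
  intro T hT S K _ _ hS
  have h3 := dyadic (fun t => (Nat.card {x : ClassGroup (𝓞 (K t)) // x ^ l = 1} : ℝ) ^ r)
    (fun t => by positivity) C C' (1 + r * ((f.natDegree : ℝ) / 2 - θ) + ε / 2) (ε / 2) T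
    (by positivity) (by positivity) (by positivity) hT S (fun t ht => (hS t ht).1)
    (fun h => hC' (K 0) (hS 0 h).2) hC0'.le
    (fun N hN S' hS' h => hC N hN S' K (fun t ht => ⟨h t ht, (hS t (hS' ht)).2⟩))
  refine h3.trans ?_
  have h4 := dy_end (E := 1 + r * ((f.natDegree : ℝ) / 2 - θ) + ε / 2) hC0'.le hC0.le
    (by positivity : 0 < ε / 2) hT (by positivity) (le_refl (1 : ℝ))
  have h5 : (1 + r * ((f.natDegree : ℝ) / 2 - θ) + ε / 2) + ε / 2 =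
      1 + r * ((f.natDegree : ℝ) / 2 - θ) + ε := by ring
  rw [h5, mul_one, mul_one] at h4
  rw [h5]
  exact h4

end Pool.Agent.J6H11.PF
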